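import Pool.Agent.Y722.LS.Main

/-!
# The mean square, with a count of the points of the base locus
-/

set_option autoImplicit false

namespace Pool.Agent.Y722.LS

open Finset Pool.Agent.Y722.HS

variable {m : ℕ} {ι : Type} [Fintype ι] [DecidableEq ι]

theorem half_pow {m p : ℕ} (hp : p.Prime) : (p : ℝ) ^ ((m : ℝ) - 1 / 2) ≤ (p : ℝ) ^ m := by
  have hp1 : (1 : ℝ) ≤ p := by exact_mod_cast hp.one_lt.le
  rw [← Real.rpow_natCast]
  exact Real.rpow_le_rpow_of_exponent_le hp1 (by linarith)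

/-- The count for all primes. -/
theorem count_all (f : ι → MvPolynomial (Fin (2 * m + 2)) ℤ) (p0 : ℕ) (e C0 : ℝ)
    (hZ : ∀ p : ℕ, p.Prime → p0 ≤ p → |zc f p - e * (p : ℝ) ^ m| ≤ C0 * (p : ℝ) ^ ((m : ℝ) - 1 / 2)) :
    ∃ C1 : ℝ, 0 ≤ C1 ∧ ∀ p : ℕ, p.Prime →
      |zc f p - e * (p : ℝ) ^ m| ≤ C1 * (p : ℝ) ^ ((m : ℝ) - 1 / 2) := by
  refine ⟨|C0| + ∑ p ∈ range p0, |zc f p - e * (p : ℝ) ^ m| / (p : ℝ) ^ ((m : ℝ) - 1 / 2),
    by positivity, fun p hp => ?_⟩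
  have hp0 : (0 : ℝ) < p := by exact_mod_cast hp.pos
  have hx : (0 : ℝ) < (p : ℝ) ^ ((m : ℝ) - 1 / 2) := by positivity
  have hS : 0 ≤ ∑ p ∈ range p0, |zc f p - e * (p : ℝ) ^ m| / (p : ℝ) ^ ((m : ℝ) - 1 / 2) :=
    Finset.sum_nonneg fun _ _ => by positivity
  by_cases h : p0 ≤ p
  · refine (hZ p hp h).trans ?_
    gcongr
    have := le_abs_self C0
    linarith
  · have h1 : |zc f p - e * (p : ℝ) ^ m| / (p : ℝ) ^ ((m : ℝ) - 1 / 2) ≤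
        ∑ p ∈ range p0, |zc f p - e * (p : ℝ) ^ m| / (p : ℝ) ^ ((m : ℝ) - 1 / 2) :=
      Finset.single_le_sum (f := fun p : ℕ => |zc f p - e * (p : ℝ) ^ m| /
        (p : ℝ) ^ ((m : ℝ) - 1 / 2)) (fun _ _ => by positivity) (Finset.mem_range.mpr (by omega))
    rw [div_le_iff₀ hx] at h1
    refine h1.trans ?_
    gcongr
    have := abs_nonneg C0
    linarith

/-- The points of the base locus give a pole of order `e`. -/
theorem sum_base (f : ι → MvPolynomial (Fin (2 * m + 2)) ℤ) (e C1 : ℝ) (hC1 : 0 ≤ C1)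
    (hZ : ∀ p : ℕ, p.Prime → |zc f p - e * (p : ℝ) ^ m| ≤ C1 * (p : ℝ) ^ ((m : ℝ) - 1 / 2)) :
    ∃ Ce : ℝ, ∀ ε : ℝ, 0 < ε → ε ≤ 1 →
      |∑' p : Nat.Primes, zc f p * ((p : ℕ) : ℝ) ^ (-(m : ℝ) - 1 - ε) -
        e * Real.log (1 / ε)| ≤ Ce := by
  obtain ⟨Cp, hCp0, hCp⟩ := prime_near
  refine ⟨C1 * SS + |e| * Cp + (|e| + C1) * 64 + |e| * 64, fun ε hε hε1 => ?_⟩
  -- a large `y`
  obtain ⟨y, hy⟩ : ∃ y : ℕ, 1 / (4 * ε) ≤ Real.log (y + 1) ∧ 1 ≤ y := by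
    refine ⟨max 1 ⌈Real.exp (1 / (4 * ε))⌉₊, ?_, le_max_left _ _⟩
    rw [Real.le_log_iff_exp_le (by positivity)]
    have h1 := Nat.le_ceil (Real.exp (1 / (4 * ε)))
    have h2 : ((⌈Real.exp (1 / (4 * ε))⌉₊ : ℕ) : ℝ) ≤ ((max 1 ⌈Real.exp (1 / (4 * ε))⌉₊ : ℕ) : ℝ) := by
      exact_mod_cast le_max_right _ _
    linarith
  obtain ⟨hy1, hy2⟩ := hy
  have hyε : 1 ≤ 4 * (ε * Real.log (y + 1)) := by
    rw [div_le_iff₀ (by positivity)] at hy1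
    linarith
  have h16 : 16 / (ε * Real.log (y + 1)) ≤ 64 := by
    rw [div_le_iff₀ (by linarith)]
    linarith
  have hzc : ∀ p : ℕ, p.Prime → zc f p ≤ (|e| + C1) * (p : ℝ) ^ m := by
    intro p hp
    have h1 := hZ p hp
    have h2 := half_pow (m := m) hp
    have h3 : (0 : ℝ) ≤ (p : ℝ) ^ m := by positivity
    have h4 := (abs_le.mp h1).2
    have h5 : e * (p : ℝ) ^ m ≤ |e| * (p : ℝ) ^ m := by
      gcongr
      exact le_abs_self e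
    have h6 : C1 * (p : ℝ) ^ ((m : ℝ) - 1 / 2) ≤ C1 * (p : ℝ) ^ m := by gcongr
    linarith
  have h6 := tail_tsum (fun p => zc f p / (p : ℝ) ^ (m + 1)) (|e| + C1) (by positivity) (by
    intro p hp
    have hp0 : (0 : ℝ) < p := by exact_mod_cast hp.pos
    have a1 := zc_nonneg f p hp
    have a2 := hzc p hp
    refine ⟨by positivity, ?_⟩
    rw [div_le_div_iff₀ (by positivity) hp0, pow_succ]
    calc zc f p * p ≤ (|e| + C1) * (p : ℝ) ^ m * p := by gcongr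
      _ = _ := by ring) ε hε hε1 y hy2
  have hterm : ∀ p : ℕ, p.Prime → zc f p / (p : ℝ) ^ (m + 1) * (p : ℝ) ^ (-ε) =
      zc f p * (p : ℝ) ^ (-(m : ℝ) - 1 - ε) := by
    intro p hp
    have hp0 : (0 : ℝ) < p := by exact_mod_cast hp.pos
    have e1 : (-(m : ℝ) - 1 - ε) = -((m + 1 : ℕ) : ℝ) + -ε := by push_cast; ring
    rw [e1, Real.rpow_add hp0, Real.rpow_neg hp0.le ((m + 1 : ℕ) : ℝ), Real.rpow_natCast]
    ring
  have h7 : ∑' p : Nat.Primes, zc f p / ((p : ℕ) : ℝ) ^ (m + 1) * ((p : ℕ) : ℝ) ^ (-ε) =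
      ∑' p : Nat.Primes, zc f p * ((p : ℕ) : ℝ) ^ (-(m : ℝ) - 1 - ε) :=
    tsum_congr fun p => hterm p p.2
  rw [h7] at h6
  have h8 : (|e| + C1) * (16 / (ε * Real.log (y + 1))) ≤ (|e| + C1) * 64 := by gcongr
  have h9 : |∑ p ∈ PR y, zc f p / (p : ℝ) ^ (m + 1) * (p : ℝ) ^ (-ε) -
      e * ∑ p ∈ PR y, (p : ℝ) ^ (-1 - ε)| ≤ C1 * SS := by
    rw [Finset.mul_sum, ← Finset.sum_sub_distrib]
    refine (Finset.abs_sum_le_sum_abs _ _).trans ?_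
    have h10 : ∀ p ∈ PR y, |zc f p / (p : ℝ) ^ (m + 1) * (p : ℝ) ^ (-ε) -
        e * (p : ℝ) ^ (-1 - ε)| ≤ C1 * (1 / (p : ℝ) ^ ((3 : ℝ) / 2)) := by
      intro p hp
      have hpp := (mem_PR.mp hp).2
      have hp0 : (0 : ℝ) < p := by exact_mod_cast hpp.pos
      have hp1 : (1 : ℝ) ≤ p := by exact_mod_cast hpp.one_lt.le
      have hpε : (p : ℝ) ^ (-ε) ≤ 1 := Real.rpow_le_one_of_one_le_of_nonpos hp1 (by linarith)
      have e1 : zc f p / (p : ℝ) ^ (m + 1) * (p : ℝ) ^ (-ε) - e * (p : ℝ) ^ (-1 - ε) =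
          (zc f p - e * (p : ℝ) ^ m) * ((p : ℝ) ^ (-ε) / (p : ℝ) ^ (m + 1)) := by
        rw [show (-1 - ε : ℝ) = -1 + -ε by ring, Real.rpow_add hp0, Real.rpow_neg_one, pow_succ]
        field_simp
      rw [e1, abs_mul, abs_of_pos (by positivity : (0 : ℝ) < (p : ℝ) ^ (-ε) / (p : ℝ) ^ (m + 1))]
      calc _ ≤ C1 * (p : ℝ) ^ ((m : ℝ) - 1 / 2) * (1 / (p : ℝ) ^ (m + 1)) := by
            gcongr
            exact hZ p hpp
        _ = _ := by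
            have e2 : (p : ℝ) ^ (m + 1) = (p : ℝ) ^ ((m : ℝ) - 1 / 2) * (p : ℝ) ^ ((3 : ℝ) / 2) := by
              rw [← Real.rpow_add hp0, ← Real.rpow_natCast]
              congr 1
              push_cast
              ring
            rw [e2]
            field_simp
    refine (Finset.sum_le_sum h10).trans ?_
    rw [← Finset.mul_sum]
    exact mul_le_mul_of_nonneg_left (sum_le_SS _) hC1
  have h11 := hCp ε hε hε1 y hy2 hyε
  set S5 := ∑' p : Nat.Primes, zc f p * ((p : ℕ) : ℝ) ^ (-(m : ℝ) - 1 - ε)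
  set S2 := ∑ p ∈ PR y, zc f p / (p : ℝ) ^ (m + 1) * (p : ℝ) ^ (-ε)
  set S3 := ∑ p ∈ PR y, (p : ℝ) ^ (-1 - ε)
  set l := Real.log (1 / ε)
  have e0 : S5 - e * l = (S5 - S2) + (S2 - e * S3) + e * (S3 - l) := by ring
  rw [e0]
  have i1 := abs_add_le ((S5 - S2) + (S2 - e * S3)) (e * (S3 - l))
  have i2 := abs_add_le (S5 - S2) (S2 - e * S3)
  have i3 : |e * (S3 - l)| ≤ |e| * Cp := by
    rw [abs_mul]
    gcongr
  have i4 := abs_nonneg e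
  linarith

/-- **The mean square, with a count of the points of the base locus.** -/
theorem mean_square' {d : ℕ} (hd : 1 ≤ d) (f : ι → MvPolynomial (Fin (2 * m + 2)) ℤ)
    (hf : ∀ i, (f i).IsHomogeneous d) (c0 : ι → ℤ)
    (hs : IsSmooth (lform (n := 2 * m + 1) f (fun i => (c0 i : ℂ)))) (p0 : ℕ)
    (hsep : ∀ p : ℕ, p.Prime → p0 ≤ p → Separates (n := 2 * m + 1) f p) (e C0 : ℝ)
    (hZ : ∀ p : ℕ, p.Prime → p0 ≤ p → |zc f p - e * (p : ℝ) ^ m| ≤ C0 * (p : ℝ) ^ ((m : ℝ) - 1 / 2))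
    (b : ℕ) : ∃ C : ℝ, ∀ H : ℕ, 2 ≤ H → ∀ S ⊆ box ι H, ∀ (α : (ι → ℤ) → ℕ → Fin b → ℂ)
      (ε : (ι → ℤ) → ℝ), (∀ c ∈ S, IsFrobenius f b c (α c)) →
      (∀ c ∈ S, 1 / Real.log H ≤ ε c ∧ ε c ≤ 1) →
      ∑ c ∈ S, (Real.log ‖LP (α c) (m + 1 + ε c)‖ - (1 + e) * Real.log (1 / ε c)) ^ 2 ≤
        C * (box ι H).card := by
  obtain ⟨C1, hC1, hZ1⟩ := count_all f p0 e C0 hZ
  obtain ⟨Ce, hCe⟩ := sum_base f e C1 hC1 hZ1
  have hzc : ∀ p : ℕ, p.Prime → zc f p ≤ (|e| + C1) * (p : ℝ) ^ m := by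
    intro p hp
    have h1 := hZ1 p hp
    have h2 := half_pow (m := m) hp
    have h3 : (0 : ℝ) ≤ (p : ℝ) ^ m := by positivity
    have h4 := (abs_le.mp h1).2
    have h5 : e * (p : ℝ) ^ m ≤ |e| * (p : ℝ) ^ m := by
      gcongr
      exact le_abs_self e
    have h6 : C1 * (p : ℝ) ^ ((m : ℝ) - 1 / 2) ≤ C1 * (p : ℝ) ^ m := by gcongr
    linarith
  obtain ⟨C, hC⟩ := mean_square hd f hf c0 hs p0 hsep (|e| + C1) hzc e Ce hCe b
  refine ⟨C, fun H hH S hS α ε hα hε => ?_⟩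
  have h1 := hC H hH S hS α ε hα hε
  have h2 : ∀ t : ℝ, ss (2 * m + 1) t = (m : ℂ) + 1 + t := by
    intro t
    unfold ss
    push_cast
    ring
  simp only [h2] at h1
  exact h1

end Pool.Agent.Y722.LS
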