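import Pool.Agent.Y722.LS.Planes
import Pool.Agent.Y722.LS.Gen

/-!
# A smooth hypersurface containing the spaces, and the conclusion
-/

set_option autoImplicit false

namespace Pool.Agent.Y722.LS

open Finset Pool.Agent.Y722.HS

theorem binary (d : ℕ) (hd : 1 ≤ d) (a b : ℂ)
    (h1 : ∑ s ∈ range d, ∏ r ∈ (range d).erase s, (a - r * b) = 0)
    (h2 : ∑ s ∈ range d, (-(s : ℂ)) * ∏ r ∈ (range d).erase s, (a - r * b) = 0) :
    a = 0 ∧ b = 0 := by
  have h3 : (d : ℂ) * ∏ r ∈ range d, (a - r * b) = 0 := by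
    have h4 : ∑ s ∈ range d, (a - s * b) * ∏ r ∈ (range d).erase s, (a - r * b) =
        a * ∑ s ∈ range d, ∏ r ∈ (range d).erase s, (a - r * b) +
        b * ∑ s ∈ range d, (-(s : ℂ)) * ∏ r ∈ (range d).erase s, (a - r * b) := by
      rw [Finset.mul_sum, Finset.mul_sum, ← Finset.sum_add_distrib]
      refine Finset.sum_congr rfl fun s _ => by ring
    rw [h1, h2, mul_zero, mul_zero, add_zero] at h4
    have h5 : ∑ s ∈ range d, (a - s * b) * ∏ r ∈ (range d).erase s, (a - r * b) =
        ∑ _s ∈ range d, ∏ r ∈ range d, (a - r * b) := by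
      refine Finset.sum_congr rfl fun s hs => ?_
      exact Finset.mul_prod_erase (range d) (fun r : ℕ => a - r * b) hs
    rw [h5, Finset.sum_const, Finset.card_range, nsmul_eq_mul] at h4
    exact h4
  have hd0 : (d : ℂ) ≠ 0 := by exact_mod_cast (by omega : d ≠ 0)
  have h4 : ∏ r ∈ range d, (a - r * b) = 0 := (mul_eq_zero.mp h3).resolve_left hd0
  obtain ⟨s, hs, hsab⟩ := Finset.prod_eq_zero_iff.mp h4
  have hab : a = s * b := sub_eq_zero.mp hsab
  have h5 : ∑ s' ∈ range d, ∏ r ∈ (range d).erase s', (a - r * b) =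
      ∏ r ∈ (range d).erase s, (a - r * b) := by
    rw [Finset.sum_eq_single s]
    · intro s' hs' hne
      exact Finset.prod_eq_zero (Finset.mem_erase.mpr ⟨hne.symm, hs⟩) hsab
    · intro h; exact absurd hs h
  rw [h5] at h1
  obtain ⟨r, hr, hrab⟩ := Finset.prod_eq_zero_iff.mp h1
  have hrs : (s : ℂ) - r ≠ 0 := by
    intro h
    have : (s : ℂ) = r := sub_eq_zero.mp h
    exact (Finset.mem_erase.mp hr).1 (by exact_mod_cast this.symm)
  have h6 : ((s : ℂ) - r) * b = 0 := by rw [sub_mul, ← hab]; exact hrab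
  have hb : b = 0 := (mul_eq_zero.mp h6).resolve_left hrs
  exact ⟨by rw [hab, hb, mul_zero], hb⟩

section
variable {m : ℕ}

/-- A homogeneous polynomial is the sum of its monomials. -/
theorem hom_sum {n k : ℕ} (Q : MvPolynomial (Fin (n + 1)) ℤ) (hQ : Q.IsHomogeneous k) :
    ∑ μ : Mon n k, MvPolynomial.C (Q.coeff (toFs μ)) * monp μ = Q := by
  have h := eval_hom Q hQ (fun i => (MvPolynomial.X i : MvPolynomial (Fin (n + 1)) ℤ))
  have h1 : ∀ φ : ℤ →+* MvPolynomial (Fin (n + 1)) ℤ,
      MvPolynomial.eval₂ φ (fun i => (MvPolynomial.X i : MvPolynomial (Fin (n + 1)) ℤ)) Q = Q := by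
    intro φ
    rw [RingHom.ext_int φ MvPolynomial.C]
    exact MvPolynomial.eval₂_eta Q
  rw [MvPolynomial.aeval_def, h1] at h
  conv_rhs => rw [h]
  refine Finset.sum_congr rfl fun μ _ => ?_
  have h2 : (MvPolynomial.C (Q.coeff (toFs μ)) : MvPolynomial (Fin (n + 1)) ℤ) =
      ((Q.coeff (toFs μ) : ℤ) : MvPolynomial (Fin (n + 1)) ℤ) := by
    simp
  rw [h2]
  rfl

/-- The second half of the product. -/
noncomputable def QQ (m e k : ℕ) (i : Fin (m + 1)) : MvPolynomial (Fin (2 * m + 1 + 1)) ℤ :=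
  ∏ t ∈ range k, uu (e + t) i

theorem uu_hom (t : ℕ) (i : Fin (m + 1)) : (uu t i).IsHomogeneous 1 := by
  refine MvPolynomial.IsHomogeneous.sub (MvPolynomial.isHomogeneous_X ℤ _) ?_
  have := (MvPolynomial.isHomogeneous_C (Fin (2 * m + 1 + 1)) (t : ℤ)).mul
    (MvPolynomial.isHomogeneous_X ℤ (hi i))
  rwa [zero_add] at this

theorem QQ_hom (e k : ℕ) (i : Fin (m + 1)) : (QQ m e k i).IsHomogeneous k := by
  have h := MvPolynomial.IsHomogeneous.prod (range k)
    (fun t => uu (e + t) i) (fun _ => 1) (fun t _ => uu_hom (e + t) i)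
  unfold QQ
  simpa using h

/-- The coefficients of the smooth member. -/
noncomputable def cs (m e k : ℕ) (j : (Fin e → Fin (m + 1)) × Mon (2 * m + 1) k) : ℤ :=
  ∑ i : Fin (m + 1), if j.1 = (fun _ => i) then (QQ m e k i).coeff (toFs j.2) else 0

theorem zform_cs (e k : ℕ) : zform (n := 2 * m + 1) (pf m e k) (cs m e k) =
    ∑ i : Fin (m + 1), ∏ t ∈ range (e + k), uu t i := by
  classical
  unfold zform cs
  have h1 : ∀ j : (Fin e → Fin (m + 1)) × Mon (2 * m + 1) k,
      MvPolynomial.C (∑ i : Fin (m + 1), if j.1 = (fun _ => i) then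
        (QQ m e k i).coeff (toFs j.2) else 0) * pf m e k j =
      ∑ i : Fin (m + 1), if j.1 = (fun _ => i) then
        (∏ t : Fin e, uu (t : ℕ) i) * (MvPolynomial.C ((QQ m e k i).coeff (toFs j.2)) * monp j.2)
        else 0 := by
    intro j
    rw [map_sum, Finset.sum_mul]
    refine Finset.sum_congr rfl fun i _ => ?_
    split_ifs with h
    · rw [pf, h]
      ring
    · rw [map_zero, zero_mul]
  rw [Finset.sum_congr rfl fun j _ => h1 j, Finset.sum_comm]
  refine Finset.sum_congr rfl fun i _ => ?_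
  rw [Fintype.sum_prod_type]
  simp only
  rw [Finset.sum_eq_single (fun _ => i)]
  · simp only [if_true]
    rw [← Finset.mul_sum, hom_sum _ (QQ_hom e k i), Finset.prod_range_add, QQ,
      Finset.prod_range (fun t => uu t i)]
  · intro κ _ hκ
    simp [hκ]
  · intro h; exact absurd (Finset.mem_univ _) h

/-- **The smooth member.** -/
theorem smooth_cs (e k : ℕ) (hek : 1 ≤ e + k) :
    IsSmooth (lform (n := 2 * m + 1) (pf m e k) (fun j => (cs m e k j : ℂ))) := by
  classical
  set vv : ℕ → Fin (m + 1) → MvPolynomial (Fin (2 * m + 1 + 1)) ℂ := fun t i =>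
    MvPolynomial.X (lo i) - MvPolynomial.C (t : ℂ) * MvPolynomial.X (hi i) with hvv
  have hF : lform (n := 2 * m + 1) (pf m e k) (fun j => (cs m e k j : ℂ)) =
      ∑ i : Fin (m + 1), ∏ t ∈ range (e + k), vv t i := by
    rw [lform_cast, zform_cs, map_sum]
    refine Finset.sum_congr rfl fun i _ => ?_
    rw [map_prod]
    refine Finset.prod_congr rfl fun t _ => ?_
    simp [uu, hvv]
  rw [hF]
  intro x hx _
  by_contra hcon
  push Not at hcon
  have hev : ∀ t i, MvPolynomial.eval x (vv t i) = x (lo i) - t * x (hi i) := by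
    intro t i; simp [hvv]
  have hder : ∀ j, MvPolynomial.eval x (MvPolynomial.pderiv j
      (∑ i : Fin (m + 1), ∏ t ∈ range (e + k), vv t i)) =
      ∑ i : Fin (m + 1), ∑ s ∈ range (e + k), MvPolynomial.eval x (MvPolynomial.pderiv j (vv s i)) *
        ∏ r ∈ (range (e + k)).erase s, (x (lo i) - r * x (hi i)) := by
    intro j
    rw [map_sum, map_sum]
    refine Finset.sum_congr rfl fun i _ => ?_
    rw [eval_pderiv_prod x j (range (e + k)) (fun t => vv t i)]
    refine Finset.sum_congr rfl fun s _ => ?_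
    simp only [hev]
  have hlo : ∀ i j s, MvPolynomial.eval x (MvPolynomial.pderiv (lo j) (vv s i)) =
      if i = j then 1 else 0 := by
    intro i j s
    have h1 : MvPolynomial.pderiv (lo j) (vv s i) =
        MvPolynomial.pderiv (lo j) (MvPolynomial.X (lo i)) -
        MvPolynomial.C (s : ℂ) * MvPolynomial.pderiv (lo j) (MvPolynomial.X (hi i)) := by
      simp only [hvv]
      rw [map_sub, Derivation.leibniz, MvPolynomial.pderiv_C, smul_zero, add_zero, smul_eq_mul]
    rw [h1, MvPolynomial.pderiv_X_of_ne (fun h => lo_ne_hi j i h.symm), mul_zero, sub_zero]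
    split_ifs with h
    · subst h
      rw [MvPolynomial.pderiv_X_self, map_one]
    · rw [MvPolynomial.pderiv_X_of_ne (fun h' => h (lo_inj h')), map_zero]
  have hhi : ∀ i j s, MvPolynomial.eval x (MvPolynomial.pderiv (hi j) (vv s i)) =
      if i = j then -(s : ℂ) else 0 := by
    intro i j s
    have h1 : MvPolynomial.pderiv (hi j) (vv s i) =
        MvPolynomial.pderiv (hi j) (MvPolynomial.X (lo i)) -
        MvPolynomial.C (s : ℂ) * MvPolynomial.pderiv (hi j) (MvPolynomial.X (hi i)) := by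
      simp only [hvv]
      rw [map_sub, Derivation.leibniz, MvPolynomial.pderiv_C, smul_zero, add_zero, smul_eq_mul]
    rw [h1, MvPolynomial.pderiv_X_of_ne (lo_ne_hi i j), zero_sub]
    split_ifs with h
    · subst h
      rw [MvPolynomial.pderiv_X_self, mul_one, map_neg, MvPolynomial.eval_C]
    · rw [MvPolynomial.pderiv_X_of_ne (fun h' => h (hi_inj h')), mul_zero, neg_zero, map_zero]
  have hzero : ∀ j : Fin (m + 1), x (lo j) = 0 ∧ x (hi j) = 0 := by
    intro j
    apply binary (e + k) hek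
    · have h1 := hcon (lo j)
      rw [hder] at h1
      simp only [hlo] at h1
      rw [Finset.sum_eq_single j] at h1
      · simpa using h1
      · intro i _ hi
        simp [hi]
      · intro h; exact absurd (Finset.mem_univ _) h
    · have h1 := hcon (hi j)
      rw [hder] at h1
      simp only [hhi] at h1
      rw [Finset.sum_eq_single j] at h1
      · simpa using h1
      · intro i _ hi
        simp [hi]
      · intro h; exact absurd (Finset.mem_univ _) h
  apply hx
  funext j
  rcases lo_or_hi j with ⟨i, rfl⟩ | ⟨i, rfl⟩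
  · exact (hzero i).1
  · exact (hzero i).2

/-- **Hypersurfaces of degree `e + k + 1` in `ℙ^{2m+1}` that contain the `e` disjoint spaces
`x_i = t x_{m+1+i}`:** a pole of order `1 + e`. -/
theorem planes (m e k b : ℕ) : ∃ C : ℝ, ∀ H : ℕ, 2 ≤ H →
    ∀ S ⊆ box ((Fin e → Fin (m + 1)) × Mon (2 * m + 1) (k + 1)) H,
      ∀ (α : ((Fin e → Fin (m + 1)) × Mon (2 * m + 1) (k + 1) → ℤ) → ℕ → Fin b → ℂ)
      (ε : ((Fin e → Fin (m + 1)) × Mon (2 * m + 1) (k + 1) → ℤ) → ℝ),
      (∀ c ∈ S, IsFrobenius (pf m e (k + 1)) b c (α c)) →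
      (∀ c ∈ S, 1 / Real.log H ≤ ε c ∧ ε c ≤ 1) →
      ∑ c ∈ S, (Real.log ‖LP (α c) (m + 1 + ε c)‖ - (1 + e) * Real.log (1 / ε c)) ^ 2 ≤
        C * (box ((Fin e → Fin (m + 1)) × Mon (2 * m + 1) (k + 1)) H).card :=
  mean_square' (d := e + (k + 1)) (by omega) (pf m e (k + 1)) (pf_hom m e (k + 1))
    (cs m e (k + 1)) (smooth_cs e (k + 1) (by omega)) e
    (fun p hp _ => by have := Fact.mk hp; exact separates_pf e k p) e (2 * e)
    (fun p hp h => zc_pf p hp h) b

end

end Pool.Agent.Y722.LS
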