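import Pool.Agent.Y722.HS.Avg
import Pool.Agent.Y722.HS.Tail

/-!
# Sums over primes of functions of the reduction: second moments over a box
-/

set_option autoImplicit false

namespace Pool.Agent.Y722.LS

open Finset Pool.Agent.Y722.HS

/-- Functions `N p` of the vectors modulo `p` with mean `O(p^{-2})` and second moment `O(p^{-2})`,
and functions `B p` with values in `[0, 1]` and mean `O(p^{-1})`. -/
structure Fam {ι : Type} [Fintype ι] [DecidableEq ι] (A : ℝ)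
    (N B : ∀ p : ℕ, (ι → ZMod p) → ℝ) : Prop where
  A0 : 1 ≤ A
  sq : ∀ (p : ℕ) [Fact p.Prime], EM p (fun c => N p c ^ 2) ≤ A / (p : ℝ) ^ 2
  mean : ∀ (p : ℕ) [Fact p.Prime], |EM p (fun c => N p c)| ≤ A / (p : ℝ) ^ 2
  nonneg : ∀ (p : ℕ) (c : ι → ZMod p), 0 ≤ B p c
  le_one : ∀ (p : ℕ) (c : ι → ZMod p), B p c ≤ 1
  bad : ∀ (p : ℕ) [Fact p.Prime], EM p (fun c => B p c) ≤ A / p

section
variable {ι : Type} [Fintype ι] [DecidableEq ι] {A : ℝ} {N B : ∀ p : ℕ, (ι → ZMod p) → ℝ}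

theorem EM_add (p : ℕ) [NeZero p] (f g : (ι → ZMod p) → ℝ) :
    EM p (fun c => f c + g c) = EM p f + EM p g := by
  simp [EM, Finset.sum_add_distrib, add_div]

theorem EM_mul (p : ℕ) [NeZero p] (t : ℝ) (f : (ι → ZMod p) → ℝ) :
    EM p (fun c => t * f c) = t * EM p f := by
  simp [EM, ← Finset.mul_sum, mul_div_assoc]

theorem EM_nonneg (p : ℕ) [NeZero p] (f : (ι → ZMod p) → ℝ) (h : ∀ c, 0 ≤ f c) : 0 ≤ EM p f := by
  unfold EM
  have : 0 ≤ ∑ c, f c := Finset.sum_nonneg fun c _ => h c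
  positivity

theorem Fam.abs (h : Fam A N B) (p : ℕ) [Fact p.Prime] :
    EM p (fun c => |N p c|) ≤ A / (p : ℝ) := by
  have hp := p_pos (p := p)
  have h1 : EM p (fun c => |N p c|) ≤ EM p (fun c => (p / 2) * N p c ^ 2 + (1 / (2 * p))) := by
    apply EM_mono
    intro c
    have h2 : 0 ≤ ((p : ℝ) * |N p c| - 1) ^ 2 := sq_nonneg _
    have h3 : ((p : ℝ) * |N p c| - 1) ^ 2 = p ^ 2 * N p c ^ 2 - 2 * p * |N p c| + 1 := by
      rw [sub_sq, mul_pow, sq_abs]; ring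
    rw [h3] at h2
    have h4 : (p : ℝ) / 2 * N p c ^ 2 + 1 / (2 * p) = (p ^ 2 * N p c ^ 2 + 1) / (2 * p) := by
      field_simp
    rw [h4, le_div_iff₀ (by positivity)]
    linarith
  refine h1.trans ?_
  rw [EM_add, EM_mul, EM_const]
  have h7 := h.sq p
  have h8 := h.A0
  calc _ ≤ (p : ℝ) / 2 * (A / (p : ℝ) ^ 2) + A / (2 * p) := by gcongr
    _ = A / p := by field_simp; ring

theorem Fam.EB_sq (h : Fam A N B) (H p : ℕ) [Fact p.Prime] (hp : p ≤ 2 * H + 1) :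
    EB H (fun c : ι → ℤ => N p (red p c) ^ 2) ≤ 2 ^ Fintype.card ι * (A / (p : ℝ) ^ 2) := by
  refine (EB_le H p hp (fun c => N p c ^ 2) (fun c => sq_nonneg _)).trans ?_
  exact mul_le_mul_of_nonneg_left (h.sq p) (by positivity)

theorem Fam.EB_mul (h : Fam A N B) (H p q : ℕ) [hp : Fact p.Prime]
    [hq : Fact q.Prime] (hpq : p ≠ q) (hH : p * q ≤ 2 * H + 1) :
    |EB H (fun c : ι → ℤ => N p (red p c) * N q (red q c))| ≤
      A / (p : ℝ) ^ 2 * (A / (q : ℝ) ^ 2) + 2 ^ Fintype.card ι * A ^ 2 / (2 * H + 1) := by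
  have hp0 := p_pos (p := p)
  have hq0 := p_pos (p := q)
  have hA := h.A0
  have h1 := EB_two (ι := ι) H p q ((Nat.coprime_primes hp.out hq.out).mpr hpq) hH
    (fun c => N p c) (fun c => N q c)
  have h2 : |EM p (fun c : ι → ZMod p => N p c) * EM q (fun c : ι → ZMod q => N q c)| ≤
      A / (p : ℝ) ^ 2 * (A / (q : ℝ) ^ 2) := by
    rw [abs_mul]
    exact mul_le_mul (h.mean p) (h.mean q) (abs_nonneg _) (by positivity)
  have h3 : EM p (fun c : ι → ZMod p => |N p c|) *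
      EM q (fun c : ι → ZMod q => |N q c|) ≤ A / (p : ℝ) * (A / (q : ℝ)) := by
    refine mul_le_mul (h.abs p) (h.abs q) ?_ (by positivity)
    exact EM_nonneg q _ fun c => abs_nonneg _
  have h4 : 2 ^ Fintype.card ι * ((p : ℝ) * q / (2 * H + 1)) *
      (EM p (fun c : ι → ZMod p => |N p c|) *
        EM q (fun c : ι → ZMod q => |N q c|)) ≤ 2 ^ Fintype.card ι * A ^ 2 / (2 * H + 1) := by
    calc _ ≤ 2 ^ Fintype.card ι * ((p : ℝ) * q / (2 * H + 1)) *
          (A / (p : ℝ) * (A / (q : ℝ))) := by gcongr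
      _ = _ := by field_simp
  have h5 := abs_sub_abs_le_abs_sub
    (EB H (fun c : ι → ℤ => N p (red p c) * N q (red q c)))
    (EM p (fun c : ι → ZMod p => N p c) * EM q (fun c : ι → ZMod q => N q c))
  linarith

/-- The sum over the primes up to `y` with weights `w`. -/
noncomputable def WW (N : ∀ p : ℕ, (ι → ZMod p) → ℝ) (y : ℕ) (w : ℕ → ℝ) (c : ι → ℤ) : ℝ :=
  ∑ p ∈ PR y, w p * N p (red p c)

/-- The constant of the second moment. -/
noncomputable def K1 (ι : Type) [Fintype ι] (A : ℝ) : ℝ :=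
  16 * 2 ^ Fintype.card ι * A * SS + 16 * A ^ 2 * SS ^ 2 + 8 * 2 ^ Fintype.card ι * A ^ 2

theorem Fam.EB_WW_sq (h : Fam A N B) (H y : ℕ) (hy : y ^ 4 ≤ H) (w : ℕ → ℝ)
    (hw : ∀ p ∈ PR y, |w p| ≤ 4 * (p : ℝ) ^ ((1 : ℝ) / 4)) :
    EB H (fun c : ι → ℤ => WW N y w c ^ 2) ≤ K1 ι A := by
  have hA := h.A0
  have hyH : y * y ≤ H := by
    rcases Nat.eq_zero_or_pos y with h0 | h0
    · simp [h0]
    · calc y * y = y ^ 2 := by ring
        _ ≤ y ^ 4 := Nat.pow_le_pow_right h0 (by norm_num)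
        _ ≤ H := hy
  have hpqH : ∀ p ∈ PR y, ∀ q ∈ PR y, p * q ≤ 2 * H + 1 := by
    intro p hp q hq
    have := Nat.mul_le_mul (mem_PR.mp hp).1 (mem_PR.mp hq).1
    omega
  have hpH : ∀ p ∈ PR y, p ≤ 2 * H + 1 := by
    intro p hp
    have h1 := hpqH p hp p hp
    have h2 : p ≤ p * p := Nat.le_mul_self p
    omega
  have h1 : ∀ c : ι → ℤ, WW N y w c ^ 2 = ∑ p ∈ PR y, ∑ q ∈ PR y,
      (w p * w q) * (N p (red p c) * N q (red q c)) := by
    intro c
    rw [WW, pow_two, Finset.sum_mul_sum]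
    refine Finset.sum_congr rfl fun p _ => Finset.sum_congr rfl fun q _ => by ring
  simp only [h1]
  rw [EB_sum]
  simp only [EB_sum, HS.EB_mul]
  set Q : ℝ := 2 ^ Fintype.card ι * A ^ 2 / (2 * H + 1) with hQ
  have hQ0 : 0 ≤ Q := by positivity
  have h2 : ∀ p ∈ PR y, ∀ q ∈ PR y,
      (w p * w q) * EB H (fun c : ι → ℤ => N p (red p c) * N q (red q c)) ≤
      (if q = p then 16 * 2 ^ Fintype.card ι * A * (1 / (p : ℝ) ^ ((3 : ℝ) / 2)) else 0) +
        (4 * A * (1 / (p : ℝ) ^ ((3 : ℝ) / 2))) * (4 * A * (1 / (q : ℝ) ^ ((3 : ℝ) / 2))) +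
        |w p| * |w q| * Q := by
    intro p hp q hq
    have hpp := (mem_PR.mp hp).2
    have hqq := (mem_PR.mp hq).2
    have := Fact.mk hpp
    have := Fact.mk hqq
    have hp0 := p_pos (p := p)
    have hq0 := p_pos (p := q)
    have hp1 : (1 : ℝ) ≤ p := by exact_mod_cast hpp.one_lt.le
    have hq1 : (1 : ℝ) ≤ q := by exact_mod_cast hqq.one_lt.le
    by_cases hpq : q = p
    · subst hpq
      rw [if_pos rfl]
      have h3 := h.EB_sq H q (hpH q hq)
      have h4 : (fun c : ι → ℤ => N q (red q c) * N q (red q c)) =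
          fun c : ι → ℤ => N q (red q c) ^ 2 := by funext c; ring
      rw [h4, ← pow_two, ← sq_abs]
      have h5 : |w q| ^ 2 ≤ 16 * (q : ℝ) ^ ((1 : ℝ) / 2) := by
        have h6 := hw q hq
        calc |w q| ^ 2 ≤ (4 * (q : ℝ) ^ ((1 : ℝ) / 4)) ^ 2 := by gcongr
          _ = 16 * (q : ℝ) ^ ((1 : ℝ) / 2) := by
              rw [mul_pow, ← Real.rpow_natCast ((q : ℝ) ^ ((1 : ℝ) / 4)) 2, ← Real.rpow_mul hq0.le]
              norm_num
      have h6 : |w q| ^ 2 * EB H (fun c : ι → ℤ => N q (red q c) ^ 2) ≤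
          16 * (q : ℝ) ^ ((1 : ℝ) / 2) * (2 ^ Fintype.card ι * (A / (q : ℝ) ^ 2)) := by
        refine mul_le_mul h5 h3 ?_ (by positivity)
        unfold EB
        positivity
      have h7 : 16 * (q : ℝ) ^ ((1 : ℝ) / 2) * (2 ^ Fintype.card ι * (A / (q : ℝ) ^ 2)) =
          16 * 2 ^ Fintype.card ι * A * (1 / (q : ℝ) ^ ((3 : ℝ) / 2)) := by
        have h8 : (q : ℝ) ^ 2 = (q : ℝ) ^ ((1 : ℝ) / 2) * (q : ℝ) ^ ((3 : ℝ) / 2) := by
          rw [← Real.rpow_add hq0, ← Real.rpow_natCast]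
          norm_num
        rw [h8]
        field_simp
      have h9 : 0 ≤ |w q| * |w q| * Q := by positivity
      have h10 : 0 ≤ (4 * A * (1 / (q : ℝ) ^ ((3 : ℝ) / 2))) *
          (4 * A * (1 / (q : ℝ) ^ ((3 : ℝ) / 2))) := by
        positivity
      linarith
    · rw [if_neg hpq, zero_add]
      have h3 := h.EB_mul H p q (fun h => hpq h.symm) (hpqH p hp q hq)
      rw [← hQ] at h3
      have h4 : (w p * w q) * EB H (fun c : ι → ℤ => N p (red p c) * N q (red q c)) ≤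
          (|w p| * |w q|) * (A / (p : ℝ) ^ 2 * (A / (q : ℝ) ^ 2) + Q) := by
        refine (le_abs_self _).trans ?_
        rw [abs_mul, abs_mul]
        exact mul_le_mul_of_nonneg_left h3 (by positivity)
      have key : ∀ r : ℕ, r ∈ PR y →
          |w r| * (A / (r : ℝ) ^ 2) ≤ 4 * A * (1 / (r : ℝ) ^ ((3 : ℝ) / 2)) := by
        intro r hr
        have hr1 : (1 : ℝ) ≤ r := by exact_mod_cast (mem_PR.mp hr).2.one_lt.le
        have hr0 : (0 : ℝ) < r := by linarith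
        have h6 : (r : ℝ) ^ ((1 : ℝ) / 4) ≤ (r : ℝ) ^ ((1 : ℝ) / 2) :=
          Real.rpow_le_rpow_of_exponent_le hr1 (by norm_num)
        have h8 : (r : ℝ) ^ 2 = (r : ℝ) ^ ((1 : ℝ) / 2) * (r : ℝ) ^ ((3 : ℝ) / 2) := by
          rw [← Real.rpow_add hr0, ← Real.rpow_natCast]
          norm_num
        have h9 : |w r| ≤ 4 * (r : ℝ) ^ ((1 : ℝ) / 2) := (hw r hr).trans (by linarith)
        calc |w r| * (A / (r : ℝ) ^ 2) ≤ 4 * (r : ℝ) ^ ((1 : ℝ) / 2) * (A / (r : ℝ) ^ 2) := by gcongr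
          _ = _ := by rw [h8]; field_simp
      have h5 : (|w p| * (A / (p : ℝ) ^ 2)) * (|w q| * (A / (q : ℝ) ^ 2)) ≤
          (4 * A * (1 / (p : ℝ) ^ ((3 : ℝ) / 2))) * (4 * A * (1 / (q : ℝ) ^ ((3 : ℝ) / 2))) :=
        mul_le_mul (key p hp) (key q hq) (by positivity) (by positivity)
      calc _ ≤ _ := h4
        _ = (|w p| * (A / (p : ℝ) ^ 2)) * (|w q| * (A / (q : ℝ) ^ 2)) + |w p| * |w q| * Q := by ring
        _ ≤ _ := by linarith
  refine (Finset.sum_le_sum fun p hp => Finset.sum_le_sum fun q hq => h2 p hp q hq).trans ?_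
  simp only [Finset.sum_add_distrib]
  have t1 : ∑ p ∈ PR y, ∑ q ∈ PR y,
      (if q = p then 16 * 2 ^ Fintype.card ι * A * (1 / (p : ℝ) ^ ((3 : ℝ) / 2)) else 0) ≤
      16 * 2 ^ Fintype.card ι * A * SS := by
    have : ∑ p ∈ PR y, ∑ q ∈ PR y,
        (if q = p then 16 * 2 ^ Fintype.card ι * A * (1 / (p : ℝ) ^ ((3 : ℝ) / 2)) else 0) =
        16 * 2 ^ Fintype.card ι * A * ∑ p ∈ PR y, 1 / (p : ℝ) ^ ((3 : ℝ) / 2) := by
      rw [Finset.mul_sum]
      refine Finset.sum_congr rfl fun p hp => ?_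
      rw [Finset.sum_ite_eq' (PR y) p, if_pos hp]
    rw [this]
    exact mul_le_mul_of_nonneg_left (sum_le_SS _) (by positivity)
  have t2 : ∑ p ∈ PR y, ∑ q ∈ PR y,
      (4 * A * (1 / (p : ℝ) ^ ((3 : ℝ) / 2))) * (4 * A * (1 / (q : ℝ) ^ ((3 : ℝ) / 2))) ≤
      16 * A ^ 2 * SS ^ 2 := by
    rw [← Finset.sum_mul_sum, ← Finset.mul_sum]
    have h3 := sum_le_SS (PR y)
    have h4 : 0 ≤ ∑ p ∈ PR y, 1 / (p : ℝ) ^ ((3 : ℝ) / 2) := Finset.sum_nonneg fun _ _ => by positivity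
    have h5 := SS_nonneg
    calc _ ≤ 4 * A * SS * (4 * A * SS) := by gcongr
      _ = _ := by ring
  have t3 : ∑ p ∈ PR y, ∑ q ∈ PR y, |w p| * |w q| * Q ≤ 8 * 2 ^ Fintype.card ι * A ^ 2 := by
    simp only [← Finset.sum_mul]
    rw [← Finset.sum_mul_sum]
    have h3 := sum_weights y w hw
    have h4 : 0 ≤ ∑ p ∈ PR y, |w p| := Finset.sum_nonneg fun _ _ => abs_nonneg _
    have h5 : (∑ p ∈ PR y, |w p|) * ∑ p ∈ PR y, |w p| ≤ 16 * (H : ℝ) := by
      have h6 : ((y : ℝ)) ^ 4 ≤ H := by exact_mod_cast hy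
      calc _ ≤ (4 * (y : ℝ) ^ 2) * (4 * (y : ℝ) ^ 2) := by gcongr
        _ = 16 * (y : ℝ) ^ 4 := by ring
        _ ≤ _ := by linarith
    calc _ ≤ 16 * (H : ℝ) * Q := by gcongr
      _ = 8 * 2 ^ Fintype.card ι * A ^ 2 * (2 * (H : ℝ) / (2 * H + 1)) := by
          rw [hQ]; field_simp; ring
      _ ≤ 8 * 2 ^ Fintype.card ι * A ^ 2 * 1 := by
          gcongr
          rw [div_le_one (by positivity)]
          linarith
      _ = _ := mul_one _
  unfold K1
  linarith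

/-- The contribution of a prime if the reduction is bad. -/
noncomputable def bb (N B : ∀ p : ℕ, (ι → ZMod p) → ℝ) (β : ℝ) (p : ℕ) (c : ι → ZMod p) : ℝ :=
  B p c * (|N p c| + β / p)

theorem Fam.bb_nonneg (h : Fam A N B) {β : ℝ} (hβ : 0 ≤ β) (p : ℕ) (c : ι → ZMod p) :
    0 ≤ bb N B β p c :=
  mul_nonneg (h.nonneg p c) (by positivity)

theorem Fam.EM_bb (h : Fam A N B) {β : ℝ} (hβ : 0 ≤ β) (p : ℕ) [Fact p.Prime] :
    EM p (fun c => bb N B β p c) ≤ (2 + β) * A * (1 / (p : ℝ) ^ ((3 : ℝ) / 2)) := by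
  have hA := h.A0
  have hp0 := p_pos (p := p)
  have hp1 : (1 : ℝ) ≤ p := by exact_mod_cast (Fact.out : p.Prime).one_lt.le
  set t : ℝ := 1 / (p : ℝ) ^ ((1 : ℝ) / 2) with ht
  have ht0 : 0 < t := by positivity
  have hr : (p : ℝ) ^ ((3 : ℝ) / 2) = p * (p : ℝ) ^ ((1 : ℝ) / 2) := by
    conv_rhs => rw [← Real.rpow_one (p : ℝ)]
    rw [Real.rpow_one, ← Real.rpow_one_add' hp0.le (by norm_num)]
    norm_num
  have hr2 : (p : ℝ) ^ ((1 : ℝ) / 2) * (p : ℝ) ^ ((1 : ℝ) / 2) = p := by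
    rw [← Real.rpow_add hp0]; norm_num
  have hpt : 1 / (p : ℝ) ≤ t := by
    rw [ht]
    apply one_div_le_one_div_of_le (by positivity)
    have h1 : (p : ℝ) ^ ((1 : ℝ) / 2) ≤ (p : ℝ) ^ (1 : ℝ) :=
      Real.rpow_le_rpow_of_exponent_le hp1 (by norm_num)
    rwa [Real.rpow_one] at h1
  have h1 : EM p (fun c => bb N B β p c) ≤
      EM p (fun c => ((1 + β) * t) * B p c + (1 / t) * N p c ^ 2) := by
    apply EM_mono
    intro c
    unfold bb
    have hB0 : 0 ≤ B p c := h.nonneg p _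
    have hB1 : B p c ≤ 1 := h.le_one p _
    have h2 : |N p c| ≤ t + (1 / t) * N p c ^ 2 := by
      have h3 : 0 ≤ (|N p c| - t) ^ 2 := sq_nonneg _
      have h4 : t * |N p c| ≤ t * (t + (1 / t) * N p c ^ 2) := by
        have h5 : t * (t + (1 / t) * N p c ^ 2) = t ^ 2 + N p c ^ 2 := by field_simp
        rw [h5]
        have h6 : (|N p c| - t) ^ 2 = N p c ^ 2 - 2 * (t * |N p c|) + t ^ 2 := by
          rw [sub_sq, sq_abs]; ring
        rw [h6] at h3
        have h7 : 0 ≤ t * |N p c| := by positivity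
        linarith
      exact le_of_mul_le_mul_left h4 ht0
    have h3 : β / p ≤ β * t := by
      rw [div_eq_mul_one_div]
      gcongr
    have h4 : 0 ≤ (1 / t) * N p c ^ 2 := by positivity
    calc B p c * (|N p c| + β / p) ≤ B p c * ((t + (1 / t) * N p c ^ 2) + β * t) := by gcongr
      _ = (1 + β) * t * B p c + B p c * ((1 / t) * N p c ^ 2) := by ring
      _ ≤ (1 + β) * t * B p c + 1 * ((1 / t) * N p c ^ 2) := by gcongr
      _ = _ := by ring
  refine h1.trans ?_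
  rw [EM_add, EM_mul, EM_mul]
  have h5 := h.bad p
  have h6 := h.sq p
  calc (1 + β) * t * EM p (fun c => B p c) + 1 / t * EM p (fun c => N p c ^ 2)
      ≤ (1 + β) * t * (A / p) + 1 / t * (A / (p : ℝ) ^ 2) := by gcongr
    _ = _ := by
        have h7 : (p : ℝ) ^ 2 = p * ((p : ℝ) ^ ((1 : ℝ) / 2) * (p : ℝ) ^ ((1 : ℝ) / 2)) := by
          rw [hr2]; ring
        rw [hr, h7, ht]
        field_simp
        ring

theorem Fam.EM_bb_sq (h : Fam A N B) {β : ℝ} (hβ : 0 ≤ β) (p : ℕ) [Fact p.Prime] :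
    EM p (fun c => bb N B β p c ^ 2) ≤ 2 * (A + β ^ 2) * (1 / (p : ℝ) ^ ((3 : ℝ) / 2)) := by
  have hA := h.A0
  have hp0 := p_pos (p := p)
  have hp1 : (1 : ℝ) ≤ p := by exact_mod_cast (Fact.out : p.Prime).one_lt.le
  have h1 : EM p (fun c => bb N B β p c ^ 2) ≤
      EM p (fun c => 2 * N p c ^ 2 + 2 * (β ^ 2 / (p : ℝ) ^ 2)) := by
    apply EM_mono
    intro c
    unfold bb
    have hB0 : 0 ≤ B p c := h.nonneg p _
    have hB1 : B p c ≤ 1 := h.le_one p _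
    calc (B p c * (|N p c| + β / p)) ^ 2 ≤ (1 * (|N p c| + β / p)) ^ 2 := by gcongr
      _ ≤ 2 * |N p c| ^ 2 + 2 * (β / p) ^ 2 := by nlinarith [sq_nonneg (|N p c| - β / p)]
      _ = _ := by rw [sq_abs, div_pow]
  refine h1.trans ?_
  rw [EM_add, EM_mul, EM_const]
  have h6 := h.sq p
  have h7 : (p : ℝ) ^ ((3 : ℝ) / 2) ≤ (p : ℝ) ^ 2 := by
    rw [← Real.rpow_natCast]
    exact Real.rpow_le_rpow_of_exponent_le hp1 (by norm_num)
  calc _ ≤ 2 * (A / (p : ℝ) ^ 2) + 2 * (β ^ 2 / (p : ℝ) ^ 2) := by gcongr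
    _ = 2 * (A + β ^ 2) * (1 / (p : ℝ) ^ 2) := by ring
    _ ≤ _ := by
        have h8 : 1 / (p : ℝ) ^ 2 ≤ 1 / (p : ℝ) ^ ((3 : ℝ) / 2) :=
          one_div_le_one_div_of_le (by positivity) h7
        gcongr

/-- The constant of the second moment of the contribution of the bad primes. -/
noncomputable def K4 (ι : Type) [Fintype ι] (A β : ℝ) : ℝ :=
  2 ^ Fintype.card ι * (2 * (A + β ^ 2)) * SS + (1 + 2 ^ Fintype.card ι) * ((2 + β) * A) ^ 2 * SS ^ 2

theorem Fam.EB_bb_sq (h : Fam A N B) {β : ℝ} (hβ : 0 ≤ β) (H y : ℕ) (hy : y ^ 4 ≤ H) :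
    EB H (fun c : ι → ℤ => (∑ p ∈ PR y, bb N B β p (red p c)) ^ 2) ≤ K4 ι A β := by
  have hA := h.A0
  have hyH : y * y ≤ H := by
    rcases Nat.eq_zero_or_pos y with h0 | h0
    · simp [h0]
    · calc y * y = y ^ 2 := by ring
        _ ≤ y ^ 4 := Nat.pow_le_pow_right h0 (by norm_num)
        _ ≤ H := hy
  have hpqH : ∀ p ∈ PR y, ∀ q ∈ PR y, p * q ≤ 2 * H + 1 := by
    intro p hp q hq
    have := Nat.mul_le_mul (mem_PR.mp hp).1 (mem_PR.mp hq).1
    omega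
  have hpH : ∀ p ∈ PR y, p ≤ 2 * H + 1 := by
    intro p hp
    have h1 := hpqH p hp p hp
    have h2 : p ≤ p * p := Nat.le_mul_self p
    omega
  have h1 : ∀ c : ι → ℤ, (∑ p ∈ PR y, bb N B β p (red p c)) ^ 2 = ∑ p ∈ PR y, ∑ q ∈ PR y,
      (bb N B β p (red p c) * bb N B β q (red q c)) := by
    intro c
    rw [pow_two, Finset.sum_mul_sum]
  simp only [h1]
  rw [EB_sum]
  simp only [EB_sum]
  have h2 : ∀ p ∈ PR y, ∀ q ∈ PR y,
      EB H (fun c : ι → ℤ => bb N B β p (red p c) * bb N B β q (red q c)) ≤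
      (if q = p then 2 ^ Fintype.card ι * (2 * (A + β ^ 2)) * (1 / (p : ℝ) ^ ((3 : ℝ) / 2)) else 0) +
        (1 + 2 ^ Fintype.card ι) * (((2 + β) * A * (1 / (p : ℝ) ^ ((3 : ℝ) / 2))) *
          ((2 + β) * A * (1 / (q : ℝ) ^ ((3 : ℝ) / 2)))) := by
    intro p hp q hq
    have hpp := (mem_PR.mp hp).2
    have hqq := (mem_PR.mp hq).2
    have := Fact.mk hpp
    have := Fact.mk hqq
    have hp0 := p_pos (p := p)
    have hq0 := p_pos (p := q)
    by_cases hpq : q = p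
    · subst hpq
      rw [if_pos rfl]
      have h4 : (fun c : ι → ℤ => bb N B β q (red q c) * bb N B β q (red q c)) =
          fun c : ι → ℤ => bb N B β q (red q c) ^ 2 := by funext c; ring
      have h3 := EB_le H q (hpH q hq) (fun c => bb N B β q c ^ 2) (fun c => sq_nonneg _)
      rw [h4]
      have h5 := h.EM_bb_sq hβ q
      have h6 : 2 ^ Fintype.card ι * EM q (fun c : ι → ZMod q => bb N B β q c ^ 2) ≤
          2 ^ Fintype.card ι * (2 * (A + β ^ 2) * (1 / (q : ℝ) ^ ((3 : ℝ) / 2))) := by gcongr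
      have h10 : 0 ≤ (1 + 2 ^ Fintype.card ι) * (((2 + β) * A * (1 / (q : ℝ) ^ ((3 : ℝ) / 2))) *
          ((2 + β) * A * (1 / (q : ℝ) ^ ((3 : ℝ) / 2)))) := by positivity
      linarith
    · rw [if_neg hpq, zero_add]
      have h3 := EB_two (ι := ι) H p q
        ((Nat.coprime_primes hpp hqq).mpr fun h => hpq h.symm) (hpqH p hp q hq)
        (fun c => bb N B β p c) (fun c => bb N B β q c)
      have hab : ∀ r : ℕ, (fun c : ι → ZMod r => |bb N B β r c|) = fun c => bb N B β r c := by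
        intro r; funext c; exact abs_of_nonneg (h.bb_nonneg hβ r c)
      rw [hab, hab] at h3
      have h4 := (abs_sub_le_iff.mp h3).1
      have e1 := h.EM_bb hβ p
      have e2 := h.EM_bb hβ q
      have e3 : 0 ≤ EM p (fun c : ι → ZMod p => bb N B β p c) :=
        EM_nonneg p _ fun c => h.bb_nonneg hβ p c
      have e4 : 0 ≤ EM q (fun c : ι → ZMod q => bb N B β q c) :=
        EM_nonneg q _ fun c => h.bb_nonneg hβ q c
      have h5 : (p : ℝ) * q / (2 * H + 1) ≤ 1 := by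
        rw [div_le_one (by positivity)]
        exact_mod_cast hpqH p hp q hq
      have h6 : EM p (fun c : ι → ZMod p => bb N B β p c) *
          EM q (fun c : ι → ZMod q => bb N B β q c) ≤
          ((2 + β) * A * (1 / (p : ℝ) ^ ((3 : ℝ) / 2))) *
          ((2 + β) * A * (1 / (q : ℝ) ^ ((3 : ℝ) / 2))) := mul_le_mul e1 e2 e4 (by positivity)
      have h7 : 0 ≤ EM p (fun c : ι → ZMod p => bb N B β p c) *
          EM q (fun c : ι → ZMod q => bb N B β q c) := mul_nonneg e3 e4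
      calc _ ≤ EM p (fun c : ι → ZMod p => bb N B β p c) *
            EM q (fun c : ι → ZMod q => bb N B β q c) +
            2 ^ Fintype.card ι * ((p : ℝ) * q / (2 * H + 1)) *
            (EM p (fun c : ι → ZMod p => bb N B β p c) *
            EM q (fun c : ι → ZMod q => bb N B β q c)) := by linarith
        _ ≤ EM p (fun c : ι → ZMod p => bb N B β p c) *
            EM q (fun c : ι → ZMod q => bb N B β q c) +
            2 ^ Fintype.card ι * 1 *
            (EM p (fun c : ι → ZMod p => bb N B β p c) *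
            EM q (fun c : ι → ZMod q => bb N B β q c)) := by gcongr
        _ = (1 + 2 ^ Fintype.card ι) * (EM p (fun c : ι → ZMod p => bb N B β p c) *
            EM q (fun c : ι → ZMod q => bb N B β q c)) := by ring
        _ ≤ _ := by gcongr
  refine (Finset.sum_le_sum fun p hp => Finset.sum_le_sum fun q hq => h2 p hp q hq).trans ?_
  simp only [Finset.sum_add_distrib]
  have t1 : ∑ p ∈ PR y, ∑ q ∈ PR y,
      (if q = p then 2 ^ Fintype.card ι * (2 * (A + β ^ 2)) * (1 / (p : ℝ) ^ ((3 : ℝ) / 2))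
        else 0) ≤ 2 ^ Fintype.card ι * (2 * (A + β ^ 2)) * SS := by
    have : ∑ p ∈ PR y, ∑ q ∈ PR y,
        (if q = p then 2 ^ Fintype.card ι * (2 * (A + β ^ 2)) * (1 / (p : ℝ) ^ ((3 : ℝ) / 2))
          else 0) =
        2 ^ Fintype.card ι * (2 * (A + β ^ 2)) * ∑ p ∈ PR y, 1 / (p : ℝ) ^ ((3 : ℝ) / 2) := by
      rw [Finset.mul_sum]
      refine Finset.sum_congr rfl fun p hp => ?_
      rw [Finset.sum_ite_eq' (PR y) p, if_pos hp]
    rw [this]
    exact mul_le_mul_of_nonneg_left (sum_le_SS _) (by positivity)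
  have t2 : ∑ p ∈ PR y, ∑ q ∈ PR y,
      (1 + 2 ^ Fintype.card ι) * (((2 + β) * A * (1 / (p : ℝ) ^ ((3 : ℝ) / 2))) *
          ((2 + β) * A * (1 / (q : ℝ) ^ ((3 : ℝ) / 2)))) ≤
      (1 + 2 ^ Fintype.card ι) * ((2 + β) * A) ^ 2 * SS ^ 2 := by
    simp only [← Finset.mul_sum]
    rw [← Finset.sum_mul, ← Finset.mul_sum]
    have h3 := sum_le_SS (PR y)
    have h4 : 0 ≤ ∑ p ∈ PR y, 1 / (p : ℝ) ^ ((3 : ℝ) / 2) := Finset.sum_nonneg fun _ _ => by positivity
    have h5 := SS_nonneg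
    calc _ ≤ (1 + 2 ^ Fintype.card ι) * ((2 + β) * A * SS * ((2 + β) * A * SS)) := by gcongr
      _ = _ := by ring
  unfold K4
  linarith

end

end Pool.Agent.Y722.LS
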