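import Pool.Agent.Y722.LS.Mom
import Pool.Agent.Y722.HS.Bad

/-!
# The members of a linear system that are singular modulo a prime
-/

set_option autoImplicit false

namespace Pool.Agent.Y722.LS

open Finset Pool.Agent.Y722.HS

section graded
attribute [local instance] MvPolynomial.gradedAlgebra

theorem hom_mul {σ R : Type*} [CommSemiring R] (a b : MvPolynomial σ R) (i j : ℕ)
    (hb : b.IsHomogeneous j) :
    MvPolynomial.homogeneousComponent (i + j) (a * b) =
      MvPolynomial.homogeneousComponent i a * b := by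
  have h := DirectSum.coe_decompose_mul_add_of_right_mem
    (MvPolynomial.homogeneousSubmodule σ R) (i := i) (j := j) (a := a) (b := b) hb
  rw [← MvPolynomial.decomposition.decompose'_apply, ← MvPolynomial.decomposition.decompose'_apply]
  exact h

end graded

section loc
attribute [local instance] MvPolynomial.algebraMvPolynomial

theorem clear_den {σ : Type*} (I : Ideal (MvPolynomial σ ℤ)) (z : MvPolynomial σ ℤ)
    (h : MvPolynomial.map (Int.castRingHom ℚ) z ∈ I.map (MvPolynomial.map (Int.castRingHom ℚ))) :
    ∃ a : ℤ, a ≠ 0 ∧ MvPolynomial.C a * z ∈ I := by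
  have h1 : (algebraMap (MvPolynomial σ ℤ) (MvPolynomial σ ℚ)) =
      MvPolynomial.map (Int.castRingHom ℚ) := by
    rw [MvPolynomial.algebraMap_def]
    rfl
  rw [← h1] at h
  rw [IsLocalization.mem_map_algebraMap_iff ((nonZeroDivisors ℤ).map (MvPolynomial.C (σ := σ)))
    (MvPolynomial σ ℚ)] at h
  obtain ⟨⟨x, m⟩, hx⟩ := h
  obtain ⟨a, ha, hm⟩ := m.2
  refine ⟨a, nonZeroDivisors.ne_zero ha, ?_⟩
  have h2 : z * (m : MvPolynomial σ ℤ) = x := by
    rw [h1] at hx
    apply MvPolynomial.map_injective (Int.castRingHom ℚ) (RingHom.injective_int _)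
    rw [map_mul]
    exact hx
  rw [hm, mul_comm, h2]
  exact x.2

end loc

variable {n : ℕ} {ι : Type} [Fintype ι] [DecidableEq ι]

/-- The form with integer coefficients. -/
noncomputable def zform (f : ι → MvPolynomial (Fin (n + 1)) ℤ) (c : ι → ℤ) :
    MvPolynomial (Fin (n + 1)) ℤ := ∑ i, MvPolynomial.C (c i) * f i

theorem lform_cast (f : ι → MvPolynomial (Fin (n + 1)) ℤ) {R : Type*} [CommRing R] (c : ι → ℤ) :
    lform f (fun i => (c i : R)) = MvPolynomial.map (Int.castRingHom R) (zform f c) := by
  simp [lform, zform, map_sum]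

/-- If a member is smooth over `ℂ`, then a multiple of a power of every variable is a combination of
the derivatives of the form, over `ℤ`. -/
theorem exists_pow (f : ι → MvPolynomial (Fin (n + 1)) ℤ) {d : ℕ} (hd : 1 ≤ d)
    (hf : ∀ i, (f i).IsHomogeneous d) (c0 : ι → ℤ)
    (hs : IsSmooth (lform f (fun i => (c0 i : ℂ)))) :
    ∃ (a : ℤ) (k : ℕ), a ≠ 0 ∧ ∀ i, MvPolynomial.C a * MvPolynomial.X i ^ k ∈
      Ideal.span (Set.range fun j => MvPolynomial.pderiv j (zform f c0)) := by
  set F0 := zform f c0 with hF0
  set I := Ideal.span (Set.range fun j => MvPolynomial.pderiv j F0) with hI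
  have hF0h : F0.IsHomogeneous d := by
    rw [hF0, zform]
    refine MvPolynomial.IsHomogeneous.sum _ _ _ fun i _ => ?_
    have := (MvPolynomial.isHomogeneous_C (Fin (n + 1)) (c0 i)).mul (hf i)
    rwa [zero_add] at this
  have hmap : I.map (MvPolynomial.map (Int.castRingHom ℚ)) =
      Ideal.span (Set.range fun j => MvPolynomial.map (Int.castRingHom ℚ)
        (MvPolynomial.pderiv j F0)) := by
    rw [hI, Ideal.map_span, ← Set.range_comp]
    rfl
  have hzero : MvPolynomial.zeroLocus ℂ (I.map (MvPolynomial.map (Int.castRingHom ℚ))) ⊆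
      ({0} : Set (Fin (n + 1) → ℂ)) := by
    intro x hx
    rw [hmap, MvPolynomial.zeroLocus_span] at hx
    by_contra hx0
    have hx1 : ∀ j, MvPolynomial.eval x (MvPolynomial.pderiv j
        (lform f (fun i => (c0 i : ℂ)))) = 0 := by
      intro j
      have h1 := hx _ ⟨j, rfl⟩
      rw [lform_cast, MvPolynomial.pderiv_map, MvPolynomial.eval_map]
      rw [MvPolynomial.aeval_def, MvPolynomial.eval₂_map] at h1
      have h2 : (algebraMap ℚ ℂ).comp (Int.castRingHom ℚ) = Int.castRingHom ℂ :=
        RingHom.ext_int _ _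
      rwa [h2] at h1
    have hF : (lform f (fun i => (c0 i : ℂ))).IsHomogeneous d := by
      rw [lform_cast]
      exact hF0h.map _
    have hE := congrArg (MvPolynomial.eval x) hF.sum_X_mul_pderiv
    rw [map_sum] at hE
    simp only [map_mul, hx1, mul_zero, Finset.sum_const_zero, nsmul_eq_mul, map_natCast] at hE
    have hd0 : (d : ℂ) ≠ 0 := by exact_mod_cast (by omega : d ≠ 0)
    have hF1 : MvPolynomial.eval x (lform f (fun i => (c0 i : ℂ))) = 0 := by
      rcases mul_eq_zero.mp hE.symm with h | h
      · exact absurd h hd0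
      · exact h
    obtain ⟨i, hi⟩ := hs x hx0 hF1
    exact hi (hx1 i)
  have hrad : ∀ i : Fin (n + 1), ∃ k : ℕ, ∃ a : ℤ, a ≠ 0 ∧
      MvPolynomial.C a * MvPolynomial.X i ^ k ∈ I := by
    intro i
    have h1 : (MvPolynomial.X i : MvPolynomial (Fin (n + 1)) ℚ) ∈
        (I.map (MvPolynomial.map (Int.castRingHom ℚ))).radical := by
      rw [← MvPolynomial.vanishingIdeal_zeroLocus_eq_radical (K := ℂ),
        MvPolynomial.mem_vanishingIdeal_iff]
      intro x hx
      have h2 := hzero hx
      rw [Set.mem_singleton_iff] at h2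
      rw [h2]
      simp
    obtain ⟨k, hk⟩ := h1
    have h3 : MvPolynomial.map (Int.castRingHom ℚ) (MvPolynomial.X i ^ k : MvPolynomial (Fin (n + 1)) ℤ)
        ∈ I.map (MvPolynomial.map (Int.castRingHom ℚ)) := by
      rw [map_pow, MvPolynomial.map_X]
      exact hk
    obtain ⟨a, ha, h4⟩ := clear_den I _ h3
    exact ⟨k, a, ha, h4⟩
  choose k a ha hka using hrad
  refine ⟨∏ i, a i, ∑ i, k i, Finset.prod_ne_zero_iff.mpr fun i _ => ha i, fun i => ?_⟩
  have h1 : MvPolynomial.C (∏ i, a i) * MvPolynomial.X i ^ (∑ i, k i) =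
      (MvPolynomial.C (∏ j ∈ univ.erase i, a j) * MvPolynomial.X i ^ (∑ j ∈ univ.erase i, k j)) *
        (MvPolynomial.C (a i) * MvPolynomial.X i ^ (k i)) := by
    rw [← Finset.mul_prod_erase univ _ (Finset.mem_univ i),
      ← Finset.add_sum_erase univ _ (Finset.mem_univ i), map_mul, pow_add]
    ring
  rw [h1]
  exact I.mul_mem_left _ (hka i)

/-- The exponent vector of a monomial. -/
noncomputable def toFs {D : ℕ} (ν : Mon n D) : Fin (n + 1) →₀ ℕ :=
  Finsupp.equivFunOnFinite.symm (fun i => (ν.1 i : ℕ))

theorem toFs_inj {D : ℕ} : Function.Injective (toFs (n := n) (D := D)) := by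
  intro μ ν h
  have h1 := Finsupp.equivFunOnFinite.symm.injective h
  apply Subtype.ext
  funext i
  exact Fin.ext (congrFun h1 i)

/-- The value of a form, by its coefficients. -/
theorem eval_hom {D : ℕ} {R : Type*} [CommRing R] (P : MvPolynomial (Fin (n + 1)) ℤ)
    (hP : P.IsHomogeneous D) (x : Fin (n + 1) → R) :
    MvPolynomial.aeval x P = ∑ ν : Mon n D, ((P.coeff (toFs ν) : ℤ) : R) * mev x ν := by
  classical
  rw [MvPolynomial.aeval_def, MvPolynomial.eval₂_eq']
  have h1 : ∀ ν : Mon n D, ((P.coeff (toFs ν) : ℤ) : R) * mev x ν =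
      (fun m : Fin (n + 1) →₀ ℕ => (algebraMap ℤ R) (P.coeff m) * ∏ i, x i ^ m i) (toFs ν) := by
    intro ν
    simp [mev, toFs]
  rw [Finset.sum_congr rfl fun ν _ => h1 ν, ← Finset.sum_image (s := Finset.univ)
    (f := fun m : Fin (n + 1) →₀ ℕ => (algebraMap ℤ R) (P.coeff m) * ∏ i, x i ^ m i)
    (g := toFs (n := n) (D := D)) (fun a _ b _ h => toFs_inj h)]
  apply Finset.sum_subset
  · intro m hm
    rw [Finset.mem_image]
    have h2 : ∑ i, m i = D := by
      have h3 := hP (MvPolynomial.mem_support_iff.mp hm)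
      rw [Finsupp.weight_apply, Finsupp.sum_fintype _ _ (fun i => by simp)] at h3
      simpa using h3
    refine ⟨mkMon (fun i => m i) h2, Finset.mem_univ _, ?_⟩
    ext i
    simp [toFs]
  · intro m _ hm
    rw [MvPolynomial.notMem_support_iff.mp hm]
    simp

/-- The matrix of the coefficients of linear combinations. -/
noncomputable def Tm {D : ℕ} (R : Mon n D → ι → MvPolynomial (Fin (n + 1)) ℤ) {S : Type*}
    [CommRing S] (c : ι → S) : Matrix (Mon n D) (Mon n D) S :=
  fun μ ν => ∑ i, c i * (((R μ i).coeff (toFs ν) : ℤ) : S)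

/-- **A discriminant.**  If a member is smooth over `ℂ`, then there is a polynomial in the coefficients
that does not vanish at this member, and such that all members over a field at which it does not
vanish are smooth. -/
theorem exists_disc (f : ι → MvPolynomial (Fin (n + 1)) ℤ) {d : ℕ} (hd : 1 ≤ d)
    (hf : ∀ i, (f i).IsHomogeneous d) (c0 : ι → ℤ)
    (hs : IsSmooth (lform f (fun i => (c0 i : ℂ)))) :
    ∃ P : MvPolynomial ι ℤ, MvPolynomial.eval c0 P ≠ 0 ∧ ∀ (K : Type) [Field K] (c : ι → K),
      MvPolynomial.eval₂ (Int.castRingHom K) c P ≠ 0 → IsSmooth (lform f c) := by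
  obtain ⟨a, k, ha, hk⟩ := exists_pow f hd hf c0 hs
  set F0 := zform f c0 with hF0
  set I := Ideal.span (Set.range fun j => MvPolynomial.pderiv j F0) with hI
  have hfd : ∀ i j, (MvPolynomial.pderiv j (f i)).IsHomogeneous (d - 1) := fun i j => (hf i).pderiv
  have hF0h : F0.IsHomogeneous d := by
    rw [hF0, zform]
    refine MvPolynomial.IsHomogeneous.sum _ _ _ fun i _ => ?_
    have := (MvPolynomial.isHomogeneous_C (Fin (n + 1)) (c0 i)).mul (hf i)
    rwa [zero_add] at this
  set E : ℕ := (n + 1) * k with hE
  set D : ℕ := E + (d - 1) with hD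
  -- all monomials of degree `D`
  have hmon : ∀ μ : Mon n D, ∃ G : Fin (n + 1) → MvPolynomial (Fin (n + 1)) ℤ,
      (∀ j, (G j).IsHomogeneous E) ∧
        ∑ j, G j * MvPolynomial.pderiv j F0 = MvPolynomial.monomial (toFs μ) a := by
    intro μ
    have h1 : ∃ i, k ≤ (μ.1 i : ℕ) := by
      by_contra hcon
      push Not at hcon
      have h2 : ∑ i, (μ.1 i : ℕ) < ∑ _i : Fin (n + 1), k := by
        apply Finset.sum_lt_sum_of_nonempty ⟨0, Finset.mem_univ _⟩
        intro i _
        exact hcon i
      rw [μ.2] at h2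
      simp at h2
      omega
    obtain ⟨i, hi⟩ := h1
    have h2 : MvPolynomial.monomial (toFs μ) a ∈ I := by
      have h3 : (MvPolynomial.monomial (toFs μ) a : MvPolynomial (Fin (n + 1)) ℤ) =
          (∏ j, MvPolynomial.X j ^ ((μ.1 j : ℕ) - if j = i then k else 0)) *
            (MvPolynomial.C a * MvPolynomial.X i ^ k) := by
        rw [MvPolynomial.monomial_eq, Finsupp.prod_fintype _ _ (fun i => by simp)]
        have h4 : ∀ j, (MvPolynomial.X j : MvPolynomial (Fin (n + 1)) ℤ) ^ (toFs μ j) =
            MvPolynomial.X j ^ ((μ.1 j : ℕ) - if j = i then k else 0) *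
              MvPolynomial.X j ^ (if j = i then k else 0) := by
          intro j
          rw [← pow_add]
          congr 1
          have : toFs μ j = (μ.1 j : ℕ) := by simp [toFs]
          rw [this]
          split_ifs with hj
          · subst hj; omega
          · simp
        rw [Finset.prod_congr rfl fun j _ => h4 j, Finset.prod_mul_distrib]
        have h5 : ∏ j, (MvPolynomial.X j : MvPolynomial (Fin (n + 1)) ℤ) ^ (if j = i then k else 0) =
            MvPolynomial.X i ^ k := by
          rw [Finset.prod_eq_single i]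
          · rw [if_pos rfl]
          · intro j _ hj
            rw [if_neg hj, pow_zero]
          · intro h; exact absurd (Finset.mem_univ _) h
        rw [h5]
        ring
      rw [h3]
      exact I.mul_mem_left _ (hk i)
    rw [hI, Ideal.mem_span_range_iff_exists_fun] at h2
    obtain ⟨g, hg⟩ := h2
    refine ⟨fun j => MvPolynomial.homogeneousComponent E (g j), fun j =>
      MvPolynomial.homogeneousComponent_isHomogeneous E (g j), ?_⟩
    have h3 : ∀ j, MvPolynomial.homogeneousComponent E (g j) * MvPolynomial.pderiv j F0 =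
        MvPolynomial.homogeneousComponent D (g j * MvPolynomial.pderiv j F0) := by
      intro j
      rw [hD, hom_mul _ _ _ _ hF0h.pderiv]
    rw [Finset.sum_congr rfl fun j _ => h3 j, ← map_sum, hg]
    have h4 : (MvPolynomial.monomial (toFs μ) a : MvPolynomial (Fin (n + 1)) ℤ).IsHomogeneous D := by
      apply MvPolynomial.isHomogeneous_monomial
      rw [Finsupp.degree_eq_sum]
      have : ∀ i, toFs μ i = (μ.1 i : ℕ) := by intro i; simp [toFs]
      rw [Finset.sum_congr rfl fun i _ => this i]
      exact μ.2
    rw [MvPolynomial.homogeneousComponent_of_mem h4, if_pos rfl]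
  choose G hGh hG using hmon
  -- the coefficients of the rows
  set R : Mon n D → ι → MvPolynomial (Fin (n + 1)) ℤ := fun μ i =>
    ∑ j, G μ j * MvPolynomial.pderiv j (f i) with hR
  have hRh : ∀ μ i, (R μ i).IsHomogeneous D := by
    intro μ i
    refine MvPolynomial.IsHomogeneous.sum _ _ _ fun j _ => ?_
    exact (hGh μ j).mul (hfd i j)
  refine ⟨(Tm R (fun i => (MvPolynomial.X i : MvPolynomial ι ℤ))).det, ?_, ?_⟩
  · have h1 : (MvPolynomial.eval c0) (Tm R (fun i => (MvPolynomial.X i : MvPolynomial ι ℤ))).det =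
        (Tm R c0).det := by
      rw [RingHom.map_det]
      congr 1
      ext μ ν
      simp [Tm, map_sum]
    rw [h1]
    have h2 : Tm R c0 = Matrix.diagonal (fun _ => a) := by
      ext μ ν
      have h3 : Tm R c0 μ ν = (∑ j, G μ j * MvPolynomial.pderiv j F0).coeff (toFs ν) := by
        have h4 : ∑ j, G μ j * MvPolynomial.pderiv j F0 =
            ∑ i, MvPolynomial.C (c0 i) * R μ i := by
          rw [hF0, zform, hR]
          simp only [map_sum, Finset.mul_sum]
          rw [Finset.sum_comm]
          refine Finset.sum_congr rfl fun i _ => Finset.sum_congr rfl fun j _ => ?_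
          rw [Derivation.leibniz, MvPolynomial.pderiv_C, smul_zero, add_zero, smul_eq_mul]
          ring
        rw [h4, MvPolynomial.coeff_sum]
        simp only [Tm, MvPolynomial.coeff_C_mul, Int.cast_id]
      rw [h3, hG, MvPolynomial.coeff_monomial, Matrix.diagonal_apply]
      by_cases h : μ = ν
      · rw [if_pos h, if_pos (by rw [h])]
      · rw [if_neg h, if_neg (fun h' => h (toFs_inj h'))]
    rw [h2, Matrix.det_diagonal, Finset.prod_const]
    exact pow_ne_zero _ ha
  · intro K _ c hc
    have h1 : MvPolynomial.eval₂ (Int.castRingHom K) c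
        (Tm R (fun i => (MvPolynomial.X i : MvPolynomial ι ℤ))).det = (Tm R c).det := by
      have h2 : MvPolynomial.eval₂ (Int.castRingHom K) c
          (Tm R (fun i => (MvPolynomial.X i : MvPolynomial ι ℤ))).det =
          (MvPolynomial.eval₂Hom (Int.castRingHom K) c)
            (Tm R (fun i => (MvPolynomial.X i : MvPolynomial ι ℤ))).det := rfl
      rw [h2, RingHom.map_det]
      congr 1
      ext μ ν
      simp only [Tm, RingHom.mapMatrix_apply, Matrix.map_apply, map_sum, map_mul, map_intCast,
        MvPolynomial.eval₂Hom_X']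
    rw [h1] at hc
    intro x hx _
    by_contra hcon
    push Not at hcon
    apply hc
    obtain ⟨i, hi⟩ : ∃ i, x i ≠ 0 := Function.ne_iff.mp hx
    refine Matrix.exists_mulVec_eq_zero_iff.mp ⟨fun ν => mev x ν, ?_, ?_⟩
    · intro h0
      have hs : ∑ j : Fin (n + 1), (if j = i then D else 0) = D := by simp
      have h1 := congrFun h0 (mkMon _ hs)
      simp only [mev, mkMon_apply, Pi.zero_apply] at h1
      rw [Finset.prod_eq_zero_iff] at h1
      obtain ⟨j, _, hj⟩ := h1
      split_ifs at hj with hji
      · subst hji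
        by_contra h
        exact pow_ne_zero _ hi hj
      · simp at hj
    · funext μ
      have h2 : ∑ ν, Tm R c μ ν * mev x ν =
          ∑ j, MvPolynomial.aeval x (G μ j) * MvPolynomial.eval x (MvPolynomial.pderiv j (lform f c)) := by
        have h3 : ∑ ν, Tm R c μ ν * mev x ν = ∑ i, c i * MvPolynomial.aeval x (R μ i) := by
          simp only [Tm, Finset.sum_mul]
          rw [Finset.sum_comm]
          refine Finset.sum_congr rfl fun i _ => ?_
          rw [eval_hom _ (hRh μ i), Finset.mul_sum]
          refine Finset.sum_congr rfl fun ν _ => by ring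
        rw [h3]
        simp only [hR, map_sum, map_mul, Finset.mul_sum]
        rw [Finset.sum_comm]
        refine Finset.sum_congr rfl fun j _ => ?_
        have h4 : MvPolynomial.eval x (MvPolynomial.pderiv j (lform f c)) =
            ∑ i, c i * MvPolynomial.aeval x (MvPolynomial.pderiv j (f i)) := by
          rw [lform, map_sum, map_sum]
          refine Finset.sum_congr rfl fun i _ => ?_
          rw [Derivation.leibniz, MvPolynomial.pderiv_C, smul_zero, add_zero, smul_eq_mul,
            map_mul, MvPolynomial.eval_C, MvPolynomial.pderiv_map, MvPolynomial.eval_map,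
            MvPolynomial.aeval_def]
          rfl
        rw [h4, Finset.mul_sum]
        refine Finset.sum_congr rfl fun i _ => by ring
      have h5 : (Tm R c).mulVec (fun ν => mev x ν) μ = ∑ ν, Tm R c μ ν * mev x ν := by
        simp [Matrix.mulVec, dotProduct]
      rw [h5, h2]
      simp [hcon]

theorem map_lform (f : ι → MvPolynomial (Fin (n + 1)) ℤ) {R S : Type*} [CommRing R] [CommRing S]
    (φ : R →+* S) (c : ι → R) :
    MvPolynomial.map φ (lform f c) = lform f (fun i => φ (c i)) := by
  unfold lform
  rw [map_sum]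
  refine Finset.sum_congr rfl fun i _ => ?_
  rw [map_mul, MvPolynomial.map_C, MvPolynomial.map_map,
    RingHom.ext_int (φ.comp (Int.castRingHom R)) (Int.castRingHom S)]

/-- The number of the zeros modulo `p` of a polynomial that does not vanish at an integer vector. -/
theorem card_zeros (P : MvPolynomial ι ℤ) (c0 : ι → ℤ) (p : ℕ) [Fact p.Prime]
    (hp : ¬ (p : ℤ) ∣ MvPolynomial.eval c0 P) :
    ((Nat.card {c : ι → ZMod p // MvPolynomial.eval₂ (Int.castRingHom (ZMod p)) c P = 0} : ℕ) : ℝ) *
      p ≤ P.totalDegree * (p : ℝ) ^ Fintype.card ι := by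
  classical
  set e : ι ≃ Fin (Fintype.card ι) := Fintype.equivFin _ with he
  set P0 : MvPolynomial ι (ZMod p) := MvPolynomial.map (Int.castRingHom (ZMod p)) P with hP0
  have hev : ∀ c : ι → ZMod p, MvPolynomial.eval c P0 =
      MvPolynomial.eval₂ (Int.castRingHom (ZMod p)) c P := by
    intro c
    rw [hP0, MvPolynomial.eval_map]
  have hne : P0 ≠ 0 := by
    intro h0
    have h1 := hev (fun i => (c0 i : ZMod p))
    rw [h0, map_zero] at h1
    have h2 : MvPolynomial.eval₂ (Int.castRingHom (ZMod p)) (fun i => (c0 i : ZMod p)) P =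
        (Int.castRingHom (ZMod p)) (MvPolynomial.eval c0 P) := by
      have := MvPolynomial.eval₂_comp_left (Int.castRingHom (ZMod p)) (RingHom.id ℤ) c0 P
      rw [MvPolynomial.eval₂_id] at this
      rw [this]
      rfl
    rw [h2] at h1
    exact hp ((ZMod.intCast_zmod_eq_zero_iff_dvd _ p).mp h1.symm)
  set Q : MvPolynomial (Fin (Fintype.card ι)) (ZMod p) := MvPolynomial.rename e P0 with hQ
  have hQne : Q ≠ 0 := by
    intro h0
    apply hne
    exact (MvPolynomial.rename_injective e e.injective) (by rw [map_zero]; exact h0)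
  have hQdeg : Q.totalDegree ≤ P.totalDegree := by
    refine le_trans (MvPolynomial.totalDegree_rename_le _ _) ?_
    refine Finset.sup_mono ?_
    exact MvPolynomial.support_map_subset _ _
  have hSZ := MvPolynomial.schwartz_zippel_totalDegree hQne (Finset.univ : Finset (ZMod p))
  have hcard : (#{g ∈ Fintype.piFinset fun _ : Fin (Fintype.card ι) =>
      (Finset.univ : Finset (ZMod p)) | MvPolynomial.eval g Q = 0}) =
      Nat.card {c : ι → ZMod p // MvPolynomial.eval₂ (Int.castRingHom (ZMod p)) c P = 0} := by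
    have hN : Nat.card {c : ι → ZMod p // MvPolynomial.eval₂ (Int.castRingHom (ZMod p)) c P = 0} =
        #{c : ι → ZMod p | MvPolynomial.eval₂ (Int.castRingHom (ZMod p)) c P = 0} := by
      rw [Nat.card_eq_fintype_card, Fintype.card_subtype]
    rw [hN]
    refine Finset.card_bij' (fun g _ => fun m => g (e m)) (fun c _ => fun i => c (e.symm i)) ?_ ?_ ?_ ?_
    · intro g hg
      simp only [Finset.mem_filter, Finset.mem_univ, true_and]
      have h1 : MvPolynomial.eval g Q = 0 := (Finset.mem_filter.mp hg).2
      rw [hQ, MvPolynomial.eval_rename] at h1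
      rw [← hev]
      exact h1
    · intro c hc
      simp only [Finset.mem_filter, Finset.mem_univ, true_and] at hc
      simp only [Finset.mem_filter, Fintype.mem_piFinset, Finset.mem_univ, implies_true, true_and]
      rw [hQ, MvPolynomial.eval_rename]
      rw [← hev] at hc
      have hcomp : (fun i => c (e.symm i)) ∘ e = c := by
        funext m
        simp
      rw [hcomp]
      exact hc
    · intro g _
      funext i
      simp
    · intro c _
      funext m
      simp
  rw [hcard, Finset.card_univ, ZMod.card] at hSZ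
  have hp0 : (0 : ℝ) < p := by exact_mod_cast (Fact.out : p.Prime).pos
  have h1 : ((Nat.card {c : ι → ZMod p // MvPolynomial.eval₂ (Int.castRingHom (ZMod p)) c P = 0}
      : ℕ) : ℝ) / (p : ℝ) ^ Fintype.card ι ≤ (Q.totalDegree : ℝ) / p := by
    have h2 := (NNRat.cast_le (K := ℝ)).mpr hSZ
    push_cast at h2
    exact h2
  rw [div_le_div_iff₀ (by positivity) hp0] at h1
  refine h1.trans ?_
  gcongr

end Pool.Agent.Y722.LS
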