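import Pool.Agent.Y722.HS.LSum

/-!
# The sum of `p^{-1-ε}` over the primes up to `y`
-/

set_option autoImplicit false

namespace Pool.Agent.Y722.LS

open Finset Pool.Agent.Y722.HS

theorem zeta_near : ∃ C : ℝ, ∀ ε : ℝ, 0 < ε → ε ≤ 1 →
    |Real.log ‖riemannZeta (1 + ε)‖ - Real.log (1 / ε)| ≤ C := by
  set h : ℂ → ℂ := Function.update (fun s => (s - 1) * riemannZeta s) 1 1 with hh
  have hcont : Continuous h := by
    rw [continuous_iff_continuousAt]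
    intro s
    by_cases hs : s = 1
    · subst hs
      exact continuousAt_update_same.mpr riemannZeta_residue_one
    · rw [hh, continuousAt_update_of_ne hs]
      exact ((continuousAt_id.sub continuousAt_const).mul
        (differentiableAt_riemannZeta hs).continuousAt)
  set g : ℝ → ℝ := fun ε => ‖h (1 + (ε : ℂ))‖ with hg
  have hgc : Continuous g := by
    rw [hg]
    exact (hcont.comp (continuous_const.add Complex.continuous_ofReal)).norm
  have hne : ∀ ε : ℝ, ε ≠ 0 → (1 + (ε : ℂ)) ≠ 1 := by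
    intro ε hε h1
    apply hε
    have : (ε : ℂ) = 0 := by
      have := congrArg (fun z => z - 1) h1
      simpa using this
    exact_mod_cast this
  have hgval : ∀ ε : ℝ, 0 < ε → g ε = ε * ‖riemannZeta (1 + ε)‖ := by
    intro ε hε
    rw [hg]
    simp only [hh, Function.update_of_ne (hne ε hε.ne')]
    rw [norm_mul]
    congr 1
    simp [abs_of_pos hε]
  have hpos : ∀ ε ∈ Set.Icc (0 : ℝ) 1, g ε ≠ 0 := by
    intro ε hε
    rcases eq_or_lt_of_le hε.1 with h0 | h0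
    · rw [← h0]
      simp [hg, hh]
    · rw [hgval ε h0]
      refine mul_ne_zero h0.ne' (norm_ne_zero_iff.mpr ?_)
      apply riemannZeta_ne_zero_of_one_le_re
      simp [hε.1]
  have hlog : ContinuousOn (fun ε => Real.log (g ε)) (Set.Icc 0 1) :=
    ContinuousOn.log hgc.continuousOn hpos
  obtain ⟨C, hC⟩ := (isCompact_Icc (a := (0 : ℝ)) (b := 1)).exists_bound_of_continuousOn hlog
  refine ⟨C, fun ε h0 h1 => ?_⟩
  have h2 := hC ε ⟨h0.le, h1⟩
  have h3 : ‖riemannZeta (1 + ε)‖ ≠ 0 := by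
    intro h4
    apply hpos ε ⟨h0.le, h1⟩
    rw [hgval ε h0, h4, mul_zero]
  rw [hgval ε h0, Real.log_mul h0.ne' h3, Real.norm_eq_abs] at h2
  rw [one_div, Real.log_inv]
  have h4 : Real.log ‖riemannZeta (1 + ε)‖ - -Real.log ε =
      Real.log ε + Real.log ‖riemannZeta (1 + ε)‖ := by ring
  rw [h4]
  exact h2

theorem prime_near : ∃ C : ℝ, 0 ≤ C ∧ ∀ ε : ℝ, 0 < ε → ε ≤ 1 → ∀ y : ℕ, 1 ≤ y →
    1 ≤ 4 * (ε * Real.log (y + 1)) →
    |∑ p ∈ PR y, (p : ℝ) ^ (-1 - ε) - Real.log (1 / ε)| ≤ C := by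
  obtain ⟨C, hC⟩ := zeta_near
  refine ⟨SS + 128 + |C|, by have := SS_nonneg; positivity, fun ε h0 h1 y hy h2 => ?_⟩
  have h3 := log_LP (n := 1) (b := 1) (α := fun _ _ => 1) h0 h1 (fun p hp j => by simp) y hy
  have h4 : LP (b := 1) (fun _ _ => 1) (ss 1 ε) = riemannZeta (1 + ε) := by
    have h5 : ss 1 ε = 1 + (ε : ℂ) := by
      simp only [ss]
      push_cast
      ring
    have h6 := riemannZeta_eulerProduct_tprod (s := 1 + (ε : ℂ)) (by simp [h0])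
    rw [← h6, h5, LP]
    simp
  have h7 : ∑ p ∈ PR y, ((∑ _j : Fin 1, (1 : ℂ)) * (p : ℂ) ^ (-ss 1 ε)).re =
      ∑ p ∈ PR y, (p : ℝ) ^ (-1 - ε) := by
    refine Finset.sum_congr rfl fun p hp => ?_
    have hp0 : (0 : ℝ) < p := by exact_mod_cast (mem_PR.mp hp).2.pos
    have h8 : (p : ℂ) ^ (-ss 1 ε) = (((p : ℝ) ^ (-1 - ε) : ℝ) : ℂ) := by
      rw [Complex.ofReal_cpow hp0.le]
      congr 1
      simp only [ss]
      push_cast
      ring
    rw [h8]
    simp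
  rw [h4, h7] at h3
  have h9 := hC ε h0 h1
  have h10 : 16 / (ε * Real.log (y + 1)) ≤ 64 := by
    rw [div_le_iff₀ (by linarith)]
    linarith
  have h11 : ((1 : ℕ) : ℝ) * SS + 2 * ((1 : ℕ) : ℝ) * (16 / (ε * Real.log (y + 1))) ≤ SS + 128 := by
    push_cast
    linarith
  have h12 : |∑ p ∈ PR y, (p : ℝ) ^ (-1 - ε) - Real.log (1 / ε)| ≤
      |Real.log ‖riemannZeta (1 + ε)‖ - ∑ p ∈ PR y, (p : ℝ) ^ (-1 - ε)| +
      |Real.log ‖riemannZeta (1 + ε)‖ - Real.log (1 / ε)| := by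
    have := abs_sub (Real.log ‖riemannZeta (1 + ε)‖ - Real.log (1 / ε))
      (Real.log ‖riemannZeta (1 + ε)‖ - ∑ p ∈ PR y, (p : ℝ) ^ (-1 - ε))
    have e : Real.log ‖riemannZeta (1 + ε)‖ - Real.log (1 / ε) -
      (Real.log ‖riemannZeta (1 + ε)‖ - ∑ p ∈ PR y, (p : ℝ) ^ (-1 - ε)) =
      ∑ p ∈ PR y, (p : ℝ) ^ (-1 - ε) - Real.log (1 / ε) := by ring
    rw [e] at this
    linarith
  have h13 := le_abs_self C
  linarith

/-- The tail of a series over the primes. -/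
theorem tail_tsum (r : ℕ → ℝ) (K : ℝ) (hK : 0 ≤ K)
    (hr : ∀ p : ℕ, p.Prime → 0 ≤ r p ∧ r p ≤ K / p) (ε : ℝ) (hε : 0 < ε) (hε1 : ε ≤ 1) (y : ℕ)
    (hy : 1 ≤ y) :
    |∑' p : Nat.Primes, r p * ((p : ℕ) : ℝ) ^ (-ε) - ∑ p ∈ PR y, r p * (p : ℝ) ^ (-ε)| ≤
      K * (16 / (ε * Real.log (y + 1))) := by
  have hterm : ∀ p : Nat.Primes, ‖r p * ((p : ℕ) : ℝ) ^ (-ε)‖ ≤ K * ((p : ℕ) : ℝ) ^ (-1 - ε) := by
    intro p
    have hp0 : (0 : ℝ) < ((p : ℕ) : ℝ) := by exact_mod_cast p.2.pos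
    obtain ⟨h1, h2⟩ := hr p p.2
    rw [norm_mul, Real.norm_of_nonneg h1, Real.norm_of_nonneg (by positivity)]
    calc r p * ((p : ℕ) : ℝ) ^ (-ε) ≤ K / ((p : ℕ) : ℝ) * ((p : ℕ) : ℝ) ^ (-ε) := by gcongr
      _ = _ := by
          rw [show (-1 - ε : ℝ) = -1 + -ε by ring, Real.rpow_add hp0, Real.rpow_neg_one]
          ring
  have hg : Summable fun p : Nat.Primes => K * ((p : ℕ) : ℝ) ^ (-1 - ε) :=
    (summable_primes hε).mul_left _
  have h1 : Summable fun p : Nat.Primes => r p * ((p : ℕ) : ℝ) ^ (-ε) :=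
    Summable.of_norm_bounded hg hterm
  set S : Finset Nat.Primes := (PR y).subtype Nat.Prime with hS
  have hsum : ∑ p ∈ S, r (p : ℕ) * ((p : ℕ) : ℝ) ^ (-ε) = ∑ p ∈ PR y, r p * (p : ℝ) ^ (-ε) :=
    Finset.sum_subtype_of_mem (fun p : ℕ => r p * (p : ℝ) ^ (-ε)) fun p hp => (mem_PR.mp hp).2
  have hSmem : ∀ q : Nat.Primes, q ∈ S ↔ (q : ℕ) ≤ y := by
    intro q
    exact (Finset.mem_subtype (p := Nat.Prime) (s := PR y) (a := q)).trans
      (mem_PR.trans ⟨fun h => h.1, fun h => ⟨h, q.2⟩⟩)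
  have h2 := h1.sum_add_tsum_subtype_compl S
  rw [hsum] at h2
  rw [← h2, add_sub_cancel_left]
  have h4 : Summable fun p : {p : Nat.Primes // p ∉ S} =>
      K * (((p : Nat.Primes) : ℕ) : ℝ) ^ (-1 - ε) :=
    hg.comp_injective Subtype.val_injective
  have h3 : ‖∑' p : {p : Nat.Primes // p ∉ S}, r (p : Nat.Primes) *
      (((p : Nat.Primes) : ℕ) : ℝ) ^ (-ε)‖ ≤ K * (16 / (ε * Real.log (y + 1))) := by
    refine (tsum_of_norm_bounded h4.hasSum fun p => hterm p.1).trans ?_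
    refine h4.tsum_le_of_sum_le fun t => ?_
    rw [← Finset.mul_sum]
    refine mul_le_mul_of_nonneg_left ?_ hK
    have h5 := tail_le (y + 1) (by omega) ε hε hε1
      (t.image (fun p : {p : Nat.Primes // p ∉ S} => ((p : Nat.Primes) : ℕ))) (by
        intro q hq
        obtain ⟨p, _, rfl⟩ := Finset.mem_image.mp hq
        refine ⟨p.1.2, ?_⟩
        have h6 : ¬ ((p.1 : Nat.Primes) : ℕ) ≤ y := fun h => p.2 ((hSmem p.1).mpr h)
        omega)
    have h6 : ∑ q ∈ t.image (fun p : {p : Nat.Primes // p ∉ S} => ((p : Nat.Primes) : ℕ)),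
        (q : ℝ) ^ (-1 - ε) = ∑ p ∈ t, (((p : Nat.Primes) : ℕ) : ℝ) ^ (-1 - ε) :=
      Finset.sum_image (fun a _ b _ h => Subtype.ext (Subtype.ext h))
    rw [h6] at h5
    push_cast at h5
    exact h5
  rw [Real.norm_eq_abs] at h3
  exact h3

end Pool.Agent.Y722.LS
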