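import Pool.Agent.Y722.LS.Sup
import Pool.Agent.Y722.LS.Bad
import Pool.Agent.Y722.LS.Zeta
import Pool.Agent.Y722.HS.Main

/-!
# The L-functions of the members of a linear system, in mean square
-/

set_option autoImplicit false

namespace Pool.Agent.Y722.LS

open Finset Pool.Agent.Y722.HS

variable {m : ℕ} {ι : Type} [Fintype ι] [DecidableEq ι]

/-- `α p j`, `j < b`, are the eigenvalues of the geometric Frobenius at `p` on the inertia invariants
of the middle cohomology `H^{2m}` of the hypersurface `X : ∑ c i f i = 0` in `ℙ^{2m+1}`, zeros added if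
necessary: for all primes `p` one has `|α p j| ≤ p^m`, and if `X` is smooth modulo `p`, then
`#X(𝔽_p) = (1 + p + ⋯ + p^{2m}) - p^m + ∑ α p j`.  (The number of the nonzero vectors over `𝔽_p` on
the cone over `X` is `(p - 1) #X(𝔽_p)`.) -/
structure IsFrobenius (f : ι → MvPolynomial (Fin (2 * m + 2)) ℤ) (b : ℕ) (c : ι → ℤ)
    (α : ℕ → Fin b → ℂ) : Prop where
  bound : ∀ p : ℕ, p.Prime → ∀ j, ‖α p j‖ ≤ (p : ℝ) ^ m
  count : ∀ (p : ℕ) [Fact p.Prime],
    IsSmooth (MvPolynomial.map (algebraMap (ZMod p) (AlgebraicClosure (ZMod p)))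
      (lform (n := 2 * m + 1) f (red p c))) →
      (lcone (n := 2 * m + 1) f (red p c) : ℂ) =
        ((p : ℂ) ^ (2 * m + 1) - 1) - ((p : ℂ) - 1) * (p : ℂ) ^ m + ((p : ℂ) - 1) * ∑ j, α p j

/-- The number of the points over `𝔽_p` of the base locus. -/
noncomputable def zc (f : ι → MvPolynomial (Fin (2 * m + 2)) ℤ) (p : ℕ) : ℝ :=
  (bcone (n := 2 * m + 1) f p : ℝ) / ((p : ℝ) - 1)

theorem zc_nonneg (f : ι → MvPolynomial (Fin (2 * m + 2)) ℤ) (p : ℕ) (hp : p.Prime) :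
    0 ≤ zc f p := by
  have hp1 : (1 : ℝ) < p := by exact_mod_cast hp.one_lt
  have : (0 : ℝ) < (p : ℝ) - 1 := by linarith
  unfold zc
  positivity

/-- The normalised trace, without its mean. -/
noncomputable def NN (f : ι → MvPolynomial (Fin (2 * m + 2)) ℤ) (p0 : ℕ) (p : ℕ) (c : ι → ZMod p) :
    ℝ :=
  if p < p0 then 0 else la (n := 2 * m + 1) f p c / (p : ℝ) ^ (m + 1)

open Classical in
/-- The indicator of bad reduction. -/
noncomputable def BB (P : MvPolynomial ι ℤ) (p0 : ℕ) (p : ℕ) (c : ι → ZMod p) : ℝ :=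
  if p < p0 ∨ MvPolynomial.eval₂ (Int.castRingHom (ZMod p)) c P = 0 then 1 else 0

section
variable {f : ι → MvPolynomial (Fin (2 * m + 2)) ℤ} {p0 : ℕ} {CZ : ℝ}

theorem fam (P : MvPolynomial ι ℤ) (c0 : ι → ℤ) (hP : MvPolynomial.eval c0 P ≠ 0)
    (hCZ : 0 ≤ CZ) (hsep : ∀ p : ℕ, p.Prime → p0 ≤ p → Separates (n := 2 * m + 1) f p)
    (hZ : ∀ p : ℕ, p.Prime → zc f p ≤ CZ * (p : ℝ) ^ m) :
    Fam (4 + (1 + CZ) ^ 2 + p0 + P.totalDegree + |(MvPolynomial.eval c0 P : ℝ)|)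
      (NN f p0) (BB P p0) := by
  classical
  set A : ℝ := 4 + (1 + CZ) ^ 2 + p0 + P.totalDegree + |(MvPolynomial.eval c0 P : ℝ)| with hA
  have hp00 : (0 : ℝ) ≤ p0 := by positivity
  have hdeg0 : (0 : ℝ) ≤ P.totalDegree := by positivity
  have hev0 : (0 : ℝ) ≤ |(MvPolynomial.eval c0 P : ℝ)| := abs_nonneg _
  have hsq0 : (0 : ℝ) ≤ (1 + CZ) ^ 2 := by positivity
  have hmu : ∀ (p : ℕ) [Fact p.Prime],
      |1 / (p : ℝ) - bcone (n := 2 * m + 1) f p / (p * ((p : ℝ) - 1))| ≤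
        (1 + CZ) * (p : ℝ) ^ m / p := by
    intro p hpF
    have hp := hpF.out
    have hp0 : (0 : ℝ) < p := by exact_mod_cast hp.pos
    have hp1 : (0 : ℝ) < (p : ℝ) - 1 := by
      have : (1 : ℝ) < p := by exact_mod_cast hp.one_lt
      linarith
    have e : 1 / (p : ℝ) - bcone (n := 2 * m + 1) f p / (p * ((p : ℝ) - 1)) = (1 - zc f p) / p := by
      unfold zc; field_simp
    rw [e, abs_div, abs_of_pos hp0]
    gcongr
    have h1 := hZ p hp
    have h2 := zc_nonneg f p hp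
    have h3 : (1 : ℝ) ≤ (p : ℝ) ^ m := one_le_pow₀ (by linarith)
    rw [abs_le]
    constructor <;> nlinarith
  refine ⟨by rw [hA]; nlinarith, ?_, ?_, ?_, ?_, ?_⟩
  · intro p hpF
    have hp := hpF.out
    have hp0 : (0 : ℝ) < p := by exact_mod_cast hp.pos
    by_cases hlt : p < p0
    · have h1 : (fun c : ι → ZMod p => NN f p0 p c ^ 2) = fun _ => 0 := by
        funext c; simp [NN, hlt]
      rw [h1, EM_const]
      have : 0 ≤ A := by linarith
      positivity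
    · have h1 : (fun c : ι → ZMod p => NN f p0 p c ^ 2) =
          fun c => (1 / (p : ℝ) ^ (2 * m + 2)) * la (n := 2 * m + 1) f p c ^ 2 := by
        funext c
        rw [NN, if_neg hlt, div_pow, ← pow_mul]
        ring
      rw [h1, EM_mul, EM]
      have h2 := sum_la_sq (n := 2 * m + 1) (f := f) (p := p) (by omega) (hsep p hp (by omega))
      have h3 : (1 / (p : ℝ) - bcone (n := 2 * m + 1) f p / (p * ((p : ℝ) - 1))) ^ 2 ≤
          ((1 + CZ) * (p : ℝ) ^ m / p) ^ 2 := by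
        rw [← sq_abs]
        gcongr
        exact hmu p
      have hM : (0 : ℝ) < (p : ℝ) ^ Fintype.card ι := by positivity
      have h4 : (∑ c : ι → ZMod p, la (n := 2 * m + 1) f p c ^ 2) / (p : ℝ) ^ Fintype.card ι ≤
          4 * (p : ℝ) ^ (2 * m) + ((1 + CZ) * (p : ℝ) ^ m / p) ^ 2 := by
        rw [div_le_iff₀ hM]
        refine h2.trans ?_
        have e : 2 * m + 1 - 1 = 2 * m := by omega
        rw [e]
        gcongr
      have hp1 : (1 : ℝ) ≤ p := by exact_mod_cast hp.one_lt.le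
      calc _ ≤ 1 / (p : ℝ) ^ (2 * m + 2) *
            (4 * (p : ℝ) ^ (2 * m) + ((1 + CZ) * (p : ℝ) ^ m / p) ^ 2) := by gcongr
        _ = (4 + (1 + CZ) ^ 2 / (p : ℝ) ^ 2) / (p : ℝ) ^ 2 := by
            field_simp
            ring
        _ ≤ A / (p : ℝ) ^ 2 := by
            gcongr
            have h5 : (1 + CZ) ^ 2 / (p : ℝ) ^ 2 ≤ (1 + CZ) ^ 2 :=
              div_le_self hsq0 (one_le_pow₀ hp1)
            linarith
  · intro p hpF
    have hp := hpF.out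
    have hp0 : (0 : ℝ) < p := by exact_mod_cast hp.pos
    by_cases hlt : p < p0
    · have h1 : (fun c : ι → ZMod p => NN f p0 p c) = fun _ => 0 := by
        funext c; simp [NN, hlt]
      rw [h1, EM_const, abs_zero]
      have : 0 ≤ A := by linarith
      positivity
    · have h1 : (fun c : ι → ZMod p => NN f p0 p c) =
          fun c => (1 / (p : ℝ) ^ (m + 1)) * la (n := 2 * m + 1) f p c := by
        funext c
        rw [NN, if_neg hlt]
        ring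
      have hM : (0 : ℝ) < (p : ℝ) ^ Fintype.card ι := by positivity
      rw [h1, EM_mul, EM, sum_la, mul_div_assoc, div_self hM.ne', mul_one, abs_mul,
        abs_of_pos (by positivity : (0 : ℝ) < 1 / (p : ℝ) ^ (m + 1))]
      have h2 := hmu p
      calc _ ≤ 1 / (p : ℝ) ^ (m + 1) * ((1 + CZ) * (p : ℝ) ^ m / p) := by gcongr
        _ = (1 + CZ) / (p : ℝ) ^ 2 := by field_simp; ring
        _ ≤ A / (p : ℝ) ^ 2 := by
            gcongr
            nlinarith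
  · intro p c
    unfold BB
    split_ifs <;> norm_num
  · intro p c
    unfold BB
    split_ifs <;> norm_num
  · intro p hpF
    have hp := hpF.out
    have hp0 : (0 : ℝ) < p := by exact_mod_cast hp.pos
    have hle1 : EM p (fun c : ι → ZMod p => BB P p0 p c) ≤ 1 := by
      rw [← EM_const (ι := ι) p 1]
      apply EM_mono
      intro c
      unfold BB
      split_ifs <;> norm_num
    have hsmall : (p : ℝ) ≤ A → EM p (fun c : ι → ZMod p => BB P p0 p c) ≤ A / p := by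
      intro h
      refine hle1.trans ?_
      rw [le_div_iff₀ hp0, one_mul]
      exact h
    by_cases hlt : p < p0
    · apply hsmall
      have : (p : ℝ) ≤ p0 := by exact_mod_cast hlt.le
      linarith
    · by_cases hdvd : (p : ℤ) ∣ MvPolynomial.eval c0 P
      · apply hsmall
        have h1 : (p : ℤ) ≤ |MvPolynomial.eval c0 P| :=
          Int.le_of_dvd (abs_pos.mpr hP) ((dvd_abs _ _).mpr hdvd)
        have h2 : (p : ℝ) ≤ |(MvPolynomial.eval c0 P : ℝ)| := by exact_mod_cast h1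
        linarith
      · have h1 := card_zeros P c0 p hdvd
        have h2 : ∑ c : ι → ZMod p, BB P p0 p c = ((Nat.card {c : ι → ZMod p //
            MvPolynomial.eval₂ (Int.castRingHom (ZMod p)) c P = 0} : ℕ) : ℝ) := by
          rw [Nat.card_eq_fintype_card, Fintype.card_subtype]
          simp [BB, hlt]
        have hM : (0 : ℝ) < (p : ℝ) ^ Fintype.card ι := by positivity
        unfold EM
        rw [h2, div_le_div_iff₀ hM hp0]
        refine h1.trans ?_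
        gcongr
        linarith

/-- The mean of the normalised trace. -/
noncomputable def rho (f : ι → MvPolynomial (Fin (2 * m + 2)) ℤ) (p : ℕ) : ℝ :=
  (zc f p + (p : ℝ) ^ m) / (p : ℝ) ^ (m + 1)

theorem rho_bd (hZ : ∀ p : ℕ, p.Prime → zc f p ≤ CZ * (p : ℝ) ^ m) (p : ℕ) (hp : p.Prime) :
    0 ≤ rho f p ∧ rho f p ≤ (CZ + 1) / p := by
  have hp0 : (0 : ℝ) < p := by exact_mod_cast hp.pos
  have h1 := zc_nonneg f p hp
  have h2 := hZ p hp
  constructor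
  · unfold rho; positivity
  · unfold rho
    rw [div_le_div_iff₀ (by positivity) hp0, pow_succ]
    nlinarith

theorem term_near (P : MvPolynomial ι ℤ)
    (hP : ∀ (K : Type) [Field K] (c : ι → K), MvPolynomial.eval₂ (Int.castRingHom K) c P ≠ 0 →
      IsSmooth (lform (n := 2 * m + 1) f c))
    (hZ : ∀ p : ℕ, p.Prime → zc f p ≤ CZ * (p : ℝ) ^ m) {b : ℕ} {c : ι → ℤ} {α : ℕ → Fin b → ℂ}
    (h : IsFrobenius f b c α) (p : ℕ) [Fact p.Prime] (ε : ℝ) (hε : 0 ≤ ε) :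
    |((∑ j, α p j) * (p : ℂ) ^ (-ss (2 * m + 1) ε)).re -
      ((p : ℝ) ^ (-ε) * NN f p0 p (red p c) + rho f p * (p : ℝ) ^ (-ε))| ≤
      bb (NN f p0) (BB P p0) (b + CZ + 1) p (red p c) := by
  classical
  have hp := (Fact.out : p.Prime)
  have hp0 : (0 : ℝ) < p := by exact_mod_cast hp.pos
  have hp1 : (1 : ℝ) ≤ p := by exact_mod_cast hp.one_lt.le
  have hpε : (p : ℝ) ^ (-ε) ≤ 1 := Real.rpow_le_one_of_one_le_of_nonpos hp1 (by linarith)
  have hpε0 : 0 < (p : ℝ) ^ (-ε) := by positivity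
  have hss : (((2 * m + 1 : ℕ) : ℝ) + 1) / 2 = ((m + 1 : ℕ) : ℝ) := by push_cast; ring
  have hcp : (p : ℂ) ^ (-ss (2 * m + 1) ε) = (((p : ℝ) ^ (-ε) / (p : ℝ) ^ (m + 1) : ℝ) : ℂ) := by
    have h1 : (p : ℝ) ^ (-ε) / (p : ℝ) ^ (m + 1) = (p : ℝ) ^ (-(((m + 1 : ℕ) : ℝ) + ε)) := by
      rw [neg_add, Real.rpow_add hp0, Real.rpow_neg hp0.le ((m + 1 : ℕ) : ℝ), Real.rpow_natCast]
      ring
    rw [h1, Complex.ofReal_cpow hp0.le]
    congr 1
    unfold ss
    rw [hss]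
    push_cast
    ring
  have hbound : ∀ j, ‖α p j‖ ≤ (p : ℝ) ^ ((((2 * m + 1 : ℕ) : ℝ) - 1) / 2) := by
    intro j
    have e : (((2 * m + 1 : ℕ) : ℝ) - 1) / 2 = (m : ℝ) := by push_cast; ring
    rw [e, Real.rpow_natCast]
    exact h.bound p hp j
  obtain ⟨hρ0, hρ1⟩ := rho_bd hZ p hp
  by_cases hb : p < p0 ∨ MvPolynomial.eval₂ (Int.castRingHom (ZMod p)) (red p c) P = 0
  · have h1 : bb (NN f p0) (BB P p0) (b + CZ + 1) p (red p c) =
        |NN f p0 p (red p c)| + (b + CZ + 1) / p := by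
      unfold bb BB; rw [if_pos hb, one_mul]
    rw [h1]
    have h2 : |((∑ j, α p j) * (p : ℂ) ^ (-ss (2 * m + 1) ε)).re| ≤ b / p := by
      refine (Complex.abs_re_le_norm _).trans ?_
      rw [norm_mul, hcp, Complex.norm_real, Real.norm_of_nonneg (by positivity)]
      have h3 : ‖∑ j, α p j‖ ≤ b * (p : ℝ) ^ m := by
        refine (norm_sum_le _ _).trans ?_
        refine (Finset.sum_le_sum fun j _ => h.bound p hp j).trans ?_
        rw [Finset.sum_const, nsmul_eq_mul, Finset.card_univ, Fintype.card_fin]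
      calc _ ≤ b * (p : ℝ) ^ m * (1 / (p : ℝ) ^ (m + 1)) := by gcongr
        _ = _ := by rw [pow_succ]; field_simp
    have h3 : |(p : ℝ) ^ (-ε) * NN f p0 p (red p c)| ≤ |NN f p0 p (red p c)| := by
      rw [abs_mul, abs_of_pos hpε0]
      calc _ ≤ 1 * |NN f p0 p (red p c)| := by gcongr
        _ = _ := one_mul _
    have h4 : |rho f p * (p : ℝ) ^ (-ε)| ≤ (CZ + 1) / p := by
      rw [abs_of_nonneg (by positivity)]
      calc _ ≤ rho f p * 1 := by gcongr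
        _ ≤ _ := by rw [mul_one]; exact hρ1
    have h5 := abs_sub (((∑ j, α p j) * (p : ℂ) ^ (-ss (2 * m + 1) ε)).re)
      ((p : ℝ) ^ (-ε) * NN f p0 p (red p c) + rho f p * (p : ℝ) ^ (-ε))
    have h6 := abs_add_le ((p : ℝ) ^ (-ε) * NN f p0 p (red p c)) (rho f p * (p : ℝ) ^ (-ε))
    have h7 : ((b : ℝ) + CZ + 1) / p = b / p + (CZ + 1) / p := by ring
    rw [h7]
    linarith
  · have h1 : bb (NN f p0) (BB P p0) (b + CZ + 1) p (red p c) = 0 := by
      unfold bb BB; rw [if_neg hb, zero_mul]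
    push Not at hb
    obtain ⟨hb1, hb2⟩ := hb
    have hsm : IsSmooth (MvPolynomial.map (algebraMap (ZMod p) (AlgebraicClosure (ZMod p)))
        (lform (n := 2 * m + 1) f (red p c))) := by
      rw [map_lform]
      apply hP
      have h2 : MvPolynomial.eval₂ (Int.castRingHom (AlgebraicClosure (ZMod p)))
          (fun i => algebraMap (ZMod p) (AlgebraicClosure (ZMod p)) (red p c i)) P =
          algebraMap (ZMod p) (AlgebraicClosure (ZMod p))
            (MvPolynomial.eval₂ (Int.castRingHom (ZMod p)) (red p c) P) := by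
        rw [MvPolynomial.eval₂_comp_left, RingHom.ext_int
          ((algebraMap (ZMod p) (AlgebraicClosure (ZMod p))).comp (Int.castRingHom (ZMod p)))
          (Int.castRingHom (AlgebraicClosure (ZMod p)))]
        rfl
      rw [h2]
      intro h3
      exact hb2 ((map_eq_zero _).mp h3)
    have h2 := h.count p hsm
    have hp1' : (p : ℝ) - 1 ≠ 0 := by
      have : (1 : ℝ) < p := by exact_mod_cast hp.one_lt
      linarith
    have hp1c : ((p : ℂ) - 1) ≠ 0 := by exact_mod_cast hp1'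
    have h3 : ∑ j, α p j =
        ((la (n := 2 * m + 1) f p (red p c) + zc f p + (p : ℝ) ^ m : ℝ) : ℂ) := by
      have h4 : la (n := 2 * m + 1) f p (red p c) + zc f p + (p : ℝ) ^ m =
          ((lcone (n := 2 * m + 1) f (red p c) : ℝ) - ((p : ℝ) ^ (2 * m + 1) - 1)) / ((p : ℝ) - 1) +
            (p : ℝ) ^ m := by
        unfold la zc dcone
        field_simp
        ring
      rw [h4]
      push_cast
      rw [h2]
      field_simp
      ring
    rw [h1, h3, hcp, ← Complex.ofReal_mul, Complex.ofReal_re]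
    apply le_of_eq
    rw [abs_eq_zero, sub_eq_zero, NN, if_neg (by omega), rho]
    field_simp
    ring

/-- The sum over the primes up to `y`. -/
theorem sum_near (P : MvPolynomial ι ℤ)
    (hP : ∀ (K : Type) [Field K] (c : ι → K), MvPolynomial.eval₂ (Int.castRingHom K) c P ≠ 0 →
      IsSmooth (lform (n := 2 * m + 1) f c))
    (hZ : ∀ p : ℕ, p.Prime → zc f p ≤ CZ * (p : ℝ) ^ m) {b : ℕ} {c : ι → ℤ} {α : ℕ → Fin b → ℂ}
    (h : IsFrobenius f b c α) (y : ℕ) (ε : ℝ) (hε : 0 ≤ ε) :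
    |∑ p ∈ PR y, ((∑ j, α p j) * (p : ℂ) ^ (-ss (2 * m + 1) ε)).re -
      (Z1 (NN f p0) y ε c + ∑ p ∈ PR y, rho f p * (p : ℝ) ^ (-ε))| ≤
      ∑ p ∈ PR y, bb (NN f p0) (BB P p0) (b + CZ + 1) p (red p c) := by
  unfold Z1 WW
  rw [← Finset.sum_add_distrib, ← Finset.sum_sub_distrib]
  refine (Finset.abs_sum_le_sum_abs _ _).trans (Finset.sum_le_sum fun p hp => ?_)
  have := Fact.mk (mem_PR.mp hp).2
  exact term_near P hP hZ h p ε hε

/-- The L-function of one member. -/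
theorem one_near (P : MvPolynomial ι ℤ)
    (hP : ∀ (K : Type) [Field K] (c : ι → K), MvPolynomial.eval₂ (Int.castRingHom K) c P ≠ 0 →
      IsSmooth (lform (n := 2 * m + 1) f c)) (hCZ : 0 ≤ CZ)
    (hZ : ∀ p : ℕ, p.Prime → zc f p ≤ CZ * (p : ℝ) ^ m) (e Ce Cp : ℝ)
    (he : ∀ ε : ℝ, 0 < ε → ε ≤ 1 →
      |∑' p : Nat.Primes, zc f p * ((p : ℕ) : ℝ) ^ (-(m : ℝ) - 1 - ε) - e * Real.log (1 / ε)| ≤ Ce)
    (hCp : ∀ ε : ℝ, 0 < ε → ε ≤ 1 → ∀ y : ℕ, 1 ≤ y → 1 ≤ 4 * (ε * Real.log (y + 1)) →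
      |∑ p ∈ PR y, (p : ℝ) ^ (-1 - ε) - Real.log (1 / ε)| ≤ Cp)
    (b y : ℕ) (hy : 1 ≤ y) (c : ι → ℤ) (α : ℕ → Fin b → ℂ) (h : IsFrobenius f b c α) (ε : ℝ)
    (hε : 0 < ε) (hε1 : ε ≤ 1) (hyε : 1 ≤ 4 * (ε * Real.log (y + 1))) :
    |Real.log ‖LP α (ss (2 * m + 1) ε)‖ - (1 + e) * Real.log (1 / ε)| ≤
      |Z1 (NN f p0) y ε c| + ∑ p ∈ PR y, bb (NN f p0) (BB P p0) (b + CZ + 1) p (red p c) +
        (b * SS + 128 * b + Cp + Ce + 64 * CZ) := by
  have hbound : ∀ p : ℕ, p.Prime → ∀ j, ‖α p j‖ ≤ (p : ℝ) ^ ((((2 * m + 1 : ℕ) : ℝ) - 1) / 2) := by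
    intro p hp j
    have e : (((2 * m + 1 : ℕ) : ℝ) - 1) / 2 = (m : ℝ) := by push_cast; ring
    rw [e, Real.rpow_natCast]
    exact h.bound p hp j
  have h1 := log_LP (n := 2 * m + 1) hε hε1 hbound y hy
  have h2 := sum_near (p0 := p0) P hP hZ h y ε hε.le
  have h16 : 16 / (ε * Real.log (y + 1)) ≤ 64 := by
    rw [div_le_iff₀ (by linarith)]
    linarith
  have h3 : 2 * (b : ℝ) * (16 / (ε * Real.log (y + 1))) ≤ 128 * b := by
    calc _ ≤ 2 * (b : ℝ) * 64 := by gcongr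
      _ = _ := by ring
  have h4 := hCp ε hε hε1 y hy hyε
  have h5 := he ε hε hε1
  have h6 := tail_tsum (fun p => zc f p / (p : ℝ) ^ (m + 1)) CZ hCZ (by
    intro p hp
    have hp0 : (0 : ℝ) < p := by exact_mod_cast hp.pos
    have a1 := zc_nonneg f p hp
    have a2 := hZ p hp
    refine ⟨by positivity, ?_⟩
    rw [div_le_div_iff₀ (by positivity) hp0, pow_succ]
    calc zc f p * p ≤ CZ * (p : ℝ) ^ m * p := by gcongr
      _ = _ := by ring) ε hε hε1 y hy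
  have hterm : ∀ p : ℕ, p.Prime → zc f p / (p : ℝ) ^ (m + 1) * (p : ℝ) ^ (-ε) =
      zc f p * (p : ℝ) ^ (-(m : ℝ) - 1 - ε) := by
    intro p hp
    have hp0 : (0 : ℝ) < p := by exact_mod_cast hp.pos
    have e1 : (-(m : ℝ) - 1 - ε) = -((m + 1 : ℕ) : ℝ) + -ε := by push_cast; ring
    rw [e1, Real.rpow_add hp0, Real.rpow_neg hp0.le ((m + 1 : ℕ) : ℝ), Real.rpow_natCast]
    ring
  have h7 : ∑' p : Nat.Primes, zc f p / ((p : ℕ) : ℝ) ^ (m + 1) * ((p : ℕ) : ℝ) ^ (-ε) =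
      ∑' p : Nat.Primes, zc f p * ((p : ℕ) : ℝ) ^ (-(m : ℝ) - 1 - ε) :=
    tsum_congr fun p => hterm p p.2
  rw [h7] at h6
  have h8 : CZ * (16 / (ε * Real.log (y + 1))) ≤ 64 * CZ := by
    calc _ ≤ CZ * 64 := by gcongr
      _ = _ := by ring
  have h9 : ∑ p ∈ PR y, rho f p * (p : ℝ) ^ (-ε) =
      ∑ p ∈ PR y, zc f p / (p : ℝ) ^ (m + 1) * (p : ℝ) ^ (-ε) + ∑ p ∈ PR y, (p : ℝ) ^ (-1 - ε) := by
    rw [← Finset.sum_add_distrib]
    refine Finset.sum_congr rfl fun p hp => ?_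
    have hp0 : (0 : ℝ) < p := by exact_mod_cast (mem_PR.mp hp).2.pos
    have e1 : (p : ℝ) ^ (-1 - ε) = (p : ℝ) ^ m / (p : ℝ) ^ (m + 1) * (p : ℝ) ^ (-ε) := by
      rw [show (-1 - ε : ℝ) = -1 + -ε by ring, Real.rpow_add hp0, Real.rpow_neg_one, pow_succ]
      field_simp
    rw [e1, rho]
    ring
  rw [h9] at h2
  set L := Real.log ‖LP α (ss (2 * m + 1) ε)‖
  set S1 := ∑ p ∈ PR y, ((∑ j, α p j) * (p : ℂ) ^ (-ss (2 * m + 1) ε)).re
  set Zz := Z1 (NN f p0) y ε c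
  set S2 := ∑ p ∈ PR y, zc f p / (p : ℝ) ^ (m + 1) * (p : ℝ) ^ (-ε)
  set S3 := ∑ p ∈ PR y, (p : ℝ) ^ (-1 - ε)
  set S4 := ∑ p ∈ PR y, bb (NN f p0) (BB P p0) (b + CZ + 1) p (red p c)
  set S5 := ∑' p : Nat.Primes, zc f p * ((p : ℕ) : ℝ) ^ (-(m : ℝ) - 1 - ε)
  set l := Real.log (1 / ε)
  have e0 : L - (1 + e) * l = (L - S1) + (S1 - (Zz + (S2 + S3))) + Zz + (S3 - l) + (S2 - S5) +
      (S5 - e * l) := by ring
  rw [e0]
  have i1 := abs_add_le ((L - S1) + (S1 - (Zz + (S2 + S3))) + Zz + (S3 - l) + (S2 - S5)) (S5 - e * l)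
  have i2 := abs_add_le ((L - S1) + (S1 - (Zz + (S2 + S3))) + Zz + (S3 - l)) (S2 - S5)
  have i3 := abs_add_le ((L - S1) + (S1 - (Zz + (S2 + S3))) + Zz) (S3 - l)
  have i4 := abs_add_le ((L - S1) + (S1 - (Zz + (S2 + S3)))) Zz
  have i5 := abs_add_le (L - S1) (S1 - (Zz + (S2 + S3)))
  have i6 : |S2 - S5| ≤ 64 * CZ := by rw [abs_sub_comm]; exact h6.trans h8
  linarith

/-- **The mean square of the L-functions of the members of a linear system near the edge.** -/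
theorem mean_square {d : ℕ} (hd : 1 ≤ d) (f : ι → MvPolynomial (Fin (2 * m + 2)) ℤ)
    (hf : ∀ i, (f i).IsHomogeneous d) (c0 : ι → ℤ)
    (hs : IsSmooth (lform (n := 2 * m + 1) f (fun i => (c0 i : ℂ)))) (p0 : ℕ)
    (hsep : ∀ p : ℕ, p.Prime → p0 ≤ p → Separates (n := 2 * m + 1) f p) (CZ : ℝ)
    (hZ : ∀ p : ℕ, p.Prime → zc f p ≤ CZ * (p : ℝ) ^ m) (e Ce : ℝ)
    (he : ∀ ε : ℝ, 0 < ε → ε ≤ 1 →
      |∑' p : Nat.Primes, zc f p * ((p : ℕ) : ℝ) ^ (-(m : ℝ) - 1 - ε) - e * Real.log (1 / ε)| ≤ Ce)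
    (b : ℕ) : ∃ C : ℝ, ∀ H : ℕ, 2 ≤ H → ∀ S ⊆ box ι H, ∀ (α : (ι → ℤ) → ℕ → Fin b → ℂ)
      (ε : (ι → ℤ) → ℝ), (∀ c ∈ S, IsFrobenius f b c (α c)) →
      (∀ c ∈ S, 1 / Real.log H ≤ ε c ∧ ε c ≤ 1) →
      ∑ c ∈ S, (Real.log ‖LP (α c) (ss (2 * m + 1) (ε c))‖ - (1 + e) * Real.log (1 / ε c)) ^ 2 ≤
        C * (box ι H).card := by
  obtain ⟨P, hP0, hP⟩ := exists_disc (n := 2 * m + 1) f hd hf c0 hs
  obtain ⟨Cp, hCp0, hCp⟩ := prime_near
  have hCZ : 0 ≤ CZ := by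
    have h1 := hZ 2 Nat.prime_two
    have h2 := zc_nonneg f 2 Nat.prime_two
    have h3 : (0 : ℝ) < ((2 : ℕ) : ℝ) ^ m := by positivity
    by_contra hcon
    push Not at hcon
    nlinarith
  have hfam := fam (f := f) (p0 := p0) P c0 hP0 hCZ hsep hZ
  set A : ℝ := 4 + (1 + CZ) ^ 2 + p0 + P.totalDegree + |(MvPolynomial.eval c0 P : ℝ)| with hA
  set β : ℝ := b + CZ + 1 with hβ
  have hβ0 : 0 ≤ β := by positivity
  set K : ℝ := b * SS + 128 * b + Cp + Ce + 64 * CZ with hK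
  refine ⟨3 * (3 * K1 ι A) + 3 * K4 ι A β + 3 * K ^ 2, ?_⟩
  intro H hH S hS α ε hα hε
  obtain ⟨y, hy1, hy4, hyl⟩ := exists_y H hH
  have hlogH : 0 < Real.log H := Real.log_pos (by exact_mod_cast (by omega : 1 < H))
  set M : (ι → ℤ) → ℝ := fun c => 3 * G1 (NN f p0) y c +
    3 * (∑ p ∈ PR y, bb (NN f p0) (BB P p0) β p (red p c)) ^ 2 + 3 * K ^ 2 with hM
  have hM0 : ∀ c, 0 ≤ M c := by
    intro c
    have h1 : 0 ≤ G1 (NN f p0) y c :=
      le_trans (sq_nonneg _) (Z1_sq_le (N := NN f p0) y c 0 le_rfl zero_le_one)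
    simp only [hM]
    positivity
  have hone : ∀ c ∈ S, (Real.log ‖LP (α c) (ss (2 * m + 1) (ε c))‖ -
      (1 + e) * Real.log (1 / ε c)) ^ 2 ≤ M c := by
    intro c hc
    obtain ⟨hε0, hε1⟩ := hε c hc
    have hεp : 0 < ε c := lt_of_lt_of_le (by positivity) hε0
    have hyε : 1 ≤ 4 * (ε c * Real.log (y + 1)) := by
      have h4 : 1 ≤ ε c * Real.log H := by
        rw [div_le_iff₀ hlogH] at hε0
        exact hε0
      calc (1 : ℝ) ≤ ε c * Real.log H := h4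
        _ ≤ ε c * (4 * Real.log (y + 1)) := by gcongr
        _ = _ := by ring
    have h1 := one_near (p0 := p0) P hP hCZ hZ e Ce Cp he hCp b y hy1 c (α c) (hα c hc) (ε c) hεp
      hε1 hyε
    rw [← hβ, ← hK] at h1
    have h2 := Z1_sq_le (N := NN f p0) y c (ε c) hεp.le hε1
    have h3 : Z1 (NN f p0) y (ε c) c ^ 2 ≤ G1 (NN f p0) y c := h2
    set X := Real.log ‖LP (α c) (ss (2 * m + 1) (ε c))‖ - (1 + e) * Real.log (1 / ε c)
    set z := Z1 (NN f p0) y (ε c) c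
    set w := ∑ p ∈ PR y, bb (NN f p0) (BB P p0) β p (red p c)
    have hK0 : 0 ≤ |z| + w + K := le_trans (abs_nonneg _) h1
    have h4 : X ^ 2 ≤ (|z| + w + K) ^ 2 := by
      rw [← sq_abs X]
      gcongr
    have h5 : (|z| + w + K) ^ 2 ≤ 3 * |z| ^ 2 + 3 * w ^ 2 + 3 * K ^ 2 := by
      nlinarith [sq_nonneg (|z| - w), sq_nonneg (|z| - K), sq_nonneg (w - K)]
    rw [sq_abs] at h5
    simp only [hM]
    linarith
  have h1 : EB H M ≤ 3 * (3 * K1 ι A) + 3 * K4 ι A β + 3 * K ^ 2 := by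
    rw [hM, EB_add, EB_add, EB_const, HS.EB_mul, HS.EB_mul]
    have e1 := hfam.EB_G1 H y hy4
    have e2 := hfam.EB_bb_sq hβ0 H y hy4
    linarith
  have hB : (0 : ℝ) < (2 * H + 1 : ℝ) ^ Fintype.card ι := by positivity
  calc _ ≤ ∑ c ∈ S, M c := Finset.sum_le_sum hone
    _ ≤ ∑ c ∈ box ι H, M c := Finset.sum_le_sum_of_subset_of_nonneg hS fun c _ _ => hM0 c
    _ = EB H M * (box ι H).card := by
        rw [EB, card_box]
        field_simp
    _ ≤ _ := by gcongr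

end

end Pool.Agent.Y722.LS
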