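import Pool.Agent.Y722.HS.Mom2

/-!
# Linear systems of hypersurfaces: first and second moment of the number of points

`f i` are forms with integer coefficients, and the hypersurfaces are `∑ c i f i = 0`.
-/

set_option autoImplicit false

namespace Pool.Agent.Y722.LS

open Finset Pool.Agent.Y722.HS

variable {n : ℕ} {ι : Type} [Fintype ι] [DecidableEq ι]

/-- The form `∑ c i f i`. -/
noncomputable def lform (f : ι → MvPolynomial (Fin (n + 1)) ℤ) {R : Type*} [CommRing R]
    (c : ι → R) : MvPolynomial (Fin (n + 1)) R :=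
  ∑ i, MvPolynomial.C (c i) * MvPolynomial.map (Int.castRingHom R) (f i)

/-- The number of the nonzero vectors with coordinates in `R` at which the form `∑ c i f i`
vanishes. -/
noncomputable def lcone (f : ι → MvPolynomial (Fin (n + 1)) ℤ) {R : Type*} [CommRing R]
    (c : ι → R) : ℕ :=
  Nat.card {x : Fin (n + 1) → R // x ≠ 0 ∧ MvPolynomial.eval x (lform f c) = 0}

/-- The number of the nonzero vectors with coordinates in `𝔽_p` at which all forms `f i` vanish. -/
noncomputable def bcone (f : ι → MvPolynomial (Fin (n + 1)) ℤ) (p : ℕ) : ℕ :=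
  Nat.card {x : Fin (n + 1) → ZMod p // x ≠ 0 ∧ ∀ i, MvPolynomial.aeval x (f i) = 0}

/-- The linear system separates the points over `𝔽_p` outside the base locus. -/
def Separates (f : ι → MvPolynomial (Fin (n + 1)) ℤ) (p : ℕ) : Prop :=
  ∀ x y : Fin (n + 1) → ZMod p, (∃ i j, x i * y j ≠ x j * y i) →
    (∃ i, MvPolynomial.aeval x (f i) ≠ 0) → ∃ c : ι → ZMod p,
      MvPolynomial.eval x (lform f c) ≠ 0 ∧ MvPolynomial.eval y (lform f c) = 0

/-- The value of the form at a point. -/
noncomputable def lval (f : ι → MvPolynomial (Fin (n + 1)) ℤ) {R : Type*} [CommRing R] (c : ι → R)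
    (x : Fin (n + 1) → R) : R :=
  ∑ i, c i * MvPolynomial.aeval x (f i)

theorem eval_lform (f : ι → MvPolynomial (Fin (n + 1)) ℤ) {R : Type*} [CommRing R] (c : ι → R)
    (x : Fin (n + 1) → R) : MvPolynomial.eval x (lform f c) = lval f c x := by
  unfold lform lval
  rw [map_sum]
  refine Finset.sum_congr rfl fun i _ => ?_
  rw [map_mul, MvPolynomial.eval_C, MvPolynomial.eval_map, MvPolynomial.aeval_def]
  rfl

theorem lval_add (f : ι → MvPolynomial (Fin (n + 1)) ℤ) {R : Type*} [CommRing R] (a b : ι → R)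
    (x : Fin (n + 1) → R) : lval f (a + b) x = lval f a x + lval f b x := by
  simp [lval, add_mul, Finset.sum_add_distrib]

theorem lval_smul (f : ι → MvPolynomial (Fin (n + 1)) ℤ) {R : Type*} [CommRing R] (t : R)
    (b : ι → R) (x : Fin (n + 1) → R) : lval f (t • b) x = t * lval f b x := by
  simp [lval, Finset.mul_sum, mul_assoc]

theorem lval_zero (f : ι → MvPolynomial (Fin (n + 1)) ℤ) {R : Type*} [CommRing R]
    (x : Fin (n + 1) → R) : lval f 0 x = 0 := by
  simp [lval]

section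
variable {f : ι → MvPolynomial (Fin (n + 1)) ℤ} {p : ℕ} [Fact p.Prime]

theorem exists_lval (x : Fin (n + 1) → ZMod p) (hx : ∃ i, MvPolynomial.aeval x (f i) ≠ 0)
    (t : ZMod p) : ∃ c : ι → ZMod p, lval f c x = t := by
  obtain ⟨i, hi⟩ := hx
  refine ⟨Pi.single i (t / MvPolynomial.aeval x (f i)), ?_⟩
  unfold lval
  rw [Finset.sum_eq_single i]
  · rw [Pi.single_eq_same]
    field_simp
  · intro b _ hb
    simp [hb]
  · intro h
    exact absurd (Finset.mem_univ _) h

theorem lcard_one (x : Fin (n + 1) → ZMod p) (hx : ∃ i, MvPolynomial.aeval x (f i) ≠ 0) :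
    Nat.card {c : ι → ZMod p // lval f c x = 0} * p = p ^ Fintype.card ι := by
  set g : (ι → ZMod p) →+ ZMod p :=
    { toFun := fun c => lval f c x
      map_zero' := lval_zero f x
      map_add' := fun a b => lval_add f a b x } with hg
  have h1 := card_ker g (fun t => exists_lval x hx t)
  simp only [Nat.card_zmod, Nat.card_eq_fintype_card (α := ι → ZMod p), Fintype.card_fun,
    ZMod.card] at h1
  exact h1

theorem lcard_two (hs : Separates f p) (x y : Fin (n + 1) → ZMod p)
    (hx : ∃ i, MvPolynomial.aeval x (f i) ≠ 0) (hy : ∃ i, MvPolynomial.aeval y (f i) ≠ 0)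
    (i j : Fin (n + 1)) (hij : x i * y j ≠ x j * y i) :
    Nat.card {c : ι → ZMod p // lval f c x = 0 ∧ lval f c y = 0} * (p * p) =
      p ^ Fintype.card ι := by
  set g : (ι → ZMod p) →+ ZMod p × ZMod p :=
    { toFun := fun c => (lval f c x, lval f c y)
      map_zero' := by simp [lval]
      map_add' := fun a b => by simp [lval_add] } with hg
  have hsurj : Function.Surjective g := by
    rintro ⟨s, t⟩
    obtain ⟨c, hc1, hc2⟩ := hs x y ⟨i, j, hij⟩ hx
    obtain ⟨c', hc1', hc2'⟩ := hs y x ⟨i, j, fun h => hij (by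
      rw [mul_comm (x i), mul_comm (x j)]; exact h.symm)⟩ hy
    rw [eval_lform] at hc1 hc2 hc1' hc2'
    refine ⟨(s / lval f c x) • c + (t / lval f c' y) • c', ?_⟩
    change (lval f ((s / lval f c x) • c + (t / lval f c' y) • c') x,
      lval f ((s / lval f c x) • c + (t / lval f c' y) • c') y) = (s, t)
    rw [lval_add, lval_add, lval_smul, lval_smul, lval_smul, lval_smul, hc2, hc2',
      div_mul_cancel₀ _ hc1, div_mul_cancel₀ _ hc1', mul_zero, mul_zero, add_zero, zero_add]
  have h1 := card_ker g hsurj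
  have h2 : Nat.card {c // g c = 0} =
      Nat.card {c : ι → ZMod p // lval f c x = 0 ∧ lval f c y = 0} := by
    refine Nat.card_congr (Equiv.subtypeEquivRight fun c => ?_)
    change (lval f c x, lval f c y) = (0, 0) ↔ _
    rw [Prod.mk.injEq]
  rw [h2, Nat.card_prod] at h1
  simp only [Nat.card_zmod, Nat.card_eq_fintype_card (α := ι → ZMod p), Fintype.card_fun,
    ZMod.card] at h1
  exact h1

open Classical in
/-- The nonzero vectors outside the base locus. -/
noncomputable def YY (f : ι → MvPolynomial (Fin (n + 1)) ℤ) (p : ℕ) [Fact p.Prime] :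
    Finset (Fin (n + 1) → ZMod p) :=
  (XX n p).filter (fun x => ∃ i, MvPolynomial.aeval x (f i) ≠ 0)

theorem mem_YY {x : Fin (n + 1) → ZMod p} :
    x ∈ YY f p ↔ x ≠ 0 ∧ ∃ i, MvPolynomial.aeval x (f i) ≠ 0 := by
  rw [YY, Finset.mem_filter, mem_XX]

theorem card_YY : ((YY f p).card : ℝ) = (p : ℝ) ^ (n + 1) - 1 - bcone f p := by
  classical
  have h1 : ((XX n p).filter (fun x => ¬ ∃ i, MvPolynomial.aeval x (f i) ≠ 0)).card =
      bcone f p := by
    unfold bcone
    rw [Nat.card_eq_fintype_card, Fintype.card_subtype]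
    congr 1
    ext x
    rw [Finset.mem_filter, Finset.mem_filter, mem_XX]
    simp
  have h2 := Finset.card_filter_add_card_filter_not (s := XX n p)
    (fun x => ∃ i, MvPolynomial.aeval x (f i) ≠ 0)
  have h3 : ((YY f p).card : ℝ) + bcone f p = (XX n p).card := by
    rw [← h1]
    exact_mod_cast h2
  rw [card_XX] at h3
  linarith

theorem lcone_eq (c : ι → ZMod p) :
    (lcone f c : ℝ) = bcone f p + ∑ x ∈ YY f p, if lval f c x = 0 then (1 : ℝ) else 0 := by
  classical
  have h0 : (lcone f c : ℝ) = ∑ x ∈ XX n p, if lval f c x = 0 then (1 : ℝ) else 0 := by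
    unfold lcone
    rw [Nat.card_eq_fintype_card, Fintype.card_subtype, ← Finset.sum_filter, Finset.sum_const,
      nsmul_eq_mul, mul_one]
    congr 2
    ext x
    rw [Finset.mem_filter, Finset.mem_filter, mem_XX, eval_lform]
    simp only [Finset.mem_univ, true_and]
  have h1 : ∑ x ∈ (XX n p).filter (fun x => ¬ ∃ i, MvPolynomial.aeval x (f i) ≠ 0),
      (if lval f c x = 0 then (1 : ℝ) else 0) = bcone f p := by
    have h2 : ∀ x ∈ (XX n p).filter (fun x => ¬ ∃ i, MvPolynomial.aeval x (f i) ≠ 0),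
        (if lval f c x = 0 then (1 : ℝ) else 0) = 1 := by
      intro x hx
      rw [Finset.mem_filter] at hx
      rw [if_pos]
      have h3 := hx.2
      push Not at h3
      unfold lval
      simp [h3]
    rw [Finset.sum_congr rfl h2, Finset.sum_const, nsmul_eq_mul, mul_one]
    unfold bcone
    rw [Nat.card_eq_fintype_card, Fintype.card_subtype]
    congr 2
    ext x
    rw [Finset.mem_filter, Finset.mem_filter, mem_XX]
    simp
  have h4 := Finset.sum_filter_add_sum_filter_not (XX n p)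
    (fun x => ∃ i, MvPolynomial.aeval x (f i) ≠ 0)
    (fun x => if lval f c x = 0 then (1 : ℝ) else 0)
  rw [h0, ← h4, h1, YY]
  ring

theorem lcnt_one (x : Fin (n + 1) → ZMod p) (hx : x ∈ YY f p) :
    ∑ c : ι → ZMod p, (if lval f c x = 0 then (1 : ℝ) else 0) = (p : ℝ) ^ Fintype.card ι / p := by
  classical
  have h1 := lcard_one (f := f) (p := p) x (mem_YY.mp hx).2
  rw [Nat.card_eq_fintype_card, Fintype.card_subtype] at h1
  rw [← Finset.sum_filter, Finset.sum_const, nsmul_eq_mul, mul_one]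
  have hp0 : (0 : ℝ) < p := by exact_mod_cast (Fact.out : p.Prime).pos
  rw [eq_div_iff hp0.ne']
  exact_mod_cast h1

theorem lcnt_two (hs : Separates f p) (x y : Fin (n + 1) → ZMod p) (hx : x ∈ YY f p)
    (hy : y ∈ YY f p) (h : ¬ ∀ i j, x i * y j = x j * y i) :
    ∑ c : ι → ZMod p, ((if lval f c x = 0 then (1 : ℝ) else 0) *
      (if lval f c y = 0 then (1 : ℝ) else 0)) = (p : ℝ) ^ Fintype.card ι / (p * p) := by
  classical
  push Not at h
  obtain ⟨i, j, hij⟩ := h
  have h1 := lcard_two hs x y (mem_YY.mp hx).2 (mem_YY.mp hy).2 i j hij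
  rw [Nat.card_eq_fintype_card, Fintype.card_subtype] at h1
  have h2 : ∀ c : ι → ZMod p, ((if lval f c x = 0 then (1 : ℝ) else 0) *
      (if lval f c y = 0 then (1 : ℝ) else 0)) =
      if (lval f c x = 0 ∧ lval f c y = 0) then (1 : ℝ) else 0 := by
    intro c
    by_cases h3 : lval f c x = 0 <;> by_cases h4 : lval f c y = 0 <;> simp [h3, h4]
  rw [Finset.sum_congr rfl fun c _ => h2 c, ← Finset.sum_filter, Finset.sum_const, nsmul_eq_mul,
    mul_one]
  have hp0 : (0 : ℝ) < p := by exact_mod_cast (Fact.out : p.Prime).pos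
  rw [eq_div_iff (by positivity)]
  exact_mod_cast h1

/-- The number of the points off the base locus. -/
noncomputable def dcone (f : ι → MvPolynomial (Fin (n + 1)) ℤ) (p : ℕ) (c : ι → ZMod p) : ℝ :=
  (lcone f c : ℝ) - bcone f p

theorem sum_dcone : ∑ c : ι → ZMod p, dcone f p c =
    ((p : ℝ) ^ (n + 1) - 1 - bcone f p) / p * (p : ℝ) ^ Fintype.card ι := by
  unfold dcone
  simp only [lcone_eq, add_sub_cancel_left]
  rw [Finset.sum_comm, Finset.sum_congr rfl fun x hx => lcnt_one x hx, Finset.sum_const,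
    nsmul_eq_mul, card_YY]
  ring

theorem sum_dcone_sq (hs : Separates f p) : ∑ c : ι → ZMod p, dcone f p c ^ 2 ≤
    (((p : ℝ) ^ (n + 1) - 1 - bcone f p) + (((p : ℝ) ^ (n + 1) - 1 - bcone f p) / p) ^ 2) *
      (p : ℝ) ^ Fintype.card ι := by
  classical
  have hp0 : (0 : ℝ) < p := by exact_mod_cast (Fact.out : p.Prime).pos
  have h1 : ∀ c : ι → ZMod p, dcone f p c ^ 2 = ∑ x ∈ YY f p, ∑ y ∈ YY f p,
      ((if lval f c x = 0 then (1 : ℝ) else 0) * (if lval f c y = 0 then (1 : ℝ) else 0)) := by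
    intro c
    rw [dcone, lcone_eq, add_sub_cancel_left, sq, Finset.sum_mul_sum]
  rw [Finset.sum_congr rfl fun c _ => h1 c, Finset.sum_comm]
  have h2 : ∀ x ∈ YY f p, ∑ c : ι → ZMod p, ∑ y ∈ YY f p,
      ((if lval f c x = 0 then (1 : ℝ) else 0) * (if lval f c y = 0 then (1 : ℝ) else 0)) ≤
      (p : ℝ) ^ Fintype.card ι +
        ((p : ℝ) ^ (n + 1) - 1 - bcone f p) * ((p : ℝ) ^ Fintype.card ι / (p * p)) := by
    intro x hx
    rw [Finset.sum_comm, ← Finset.sum_filter_add_sum_filter_not (YY f p)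
      (fun y => ∀ i j, x i * y j = x j * y i)]
    refine add_le_add ?_ ?_
    · have h3 : ∀ y ∈ (YY f p).filter (fun y => ∀ i j, x i * y j = x j * y i),
          ∑ c : ι → ZMod p, ((if lval f c x = 0 then (1 : ℝ) else 0) *
            (if lval f c y = 0 then (1 : ℝ) else 0)) ≤ (p : ℝ) ^ Fintype.card ι / p := by
        intro y _
        rw [← lcnt_one x hx]
        refine Finset.sum_le_sum fun c _ => ?_
        split_ifs <;> norm_num
      refine (Finset.sum_le_sum h3).trans ?_
      rw [Finset.sum_const, nsmul_eq_mul]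
      have h4 : (((YY f p).filter (fun y => ∀ i j, x i * y j = x j * y i)).card : ℝ) ≤ p := by
        have h5 := card_prop x (mem_YY.mp hx).1
        have h6 : ((YY f p).filter (fun y => ∀ i j, x i * y j = x j * y i)).card ≤
            ((XX n p).filter (fun y => ∀ i j, x i * y j = x j * y i)).card := by
          apply Finset.card_le_card
          apply Finset.filter_subset_filter
          exact Finset.filter_subset _ _
        exact_mod_cast h6.trans h5
      calc _ ≤ (p : ℝ) * ((p : ℝ) ^ Fintype.card ι / p) := by gcongr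
        _ = _ := by field_simp
    · have h3 : ∀ y ∈ (YY f p).filter (fun y => ¬ ∀ i j, x i * y j = x j * y i),
          ∑ c : ι → ZMod p, ((if lval f c x = 0 then (1 : ℝ) else 0) *
            (if lval f c y = 0 then (1 : ℝ) else 0)) = (p : ℝ) ^ Fintype.card ι / (p * p) := by
        intro y hy
        rw [Finset.mem_filter] at hy
        exact lcnt_two hs x y hx hy.1 hy.2
      rw [Finset.sum_congr rfl h3, Finset.sum_const, nsmul_eq_mul, ← card_YY]
      gcongr
      exact Finset.filter_subset _ _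
  refine (Finset.sum_le_sum h2).trans ?_
  rw [Finset.sum_const, nsmul_eq_mul, card_YY]
  apply le_of_eq
  field_simp

/-- `#X(𝔽_p) - #Z(𝔽_p) - (1 + p + ⋯ + p^{n-1})` for a member `X` of the linear system with the base
locus `Z`. -/
noncomputable def la (f : ι → MvPolynomial (Fin (n + 1)) ℤ) (p : ℕ) (c : ι → ZMod p) : ℝ :=
  (dcone f p c - ((p : ℝ) ^ n - 1)) / ((p : ℝ) - 1)

theorem sum_la : ∑ c : ι → ZMod p, la f p c =
    (1 / p - bcone f p / (p * ((p : ℝ) - 1))) * (p : ℝ) ^ Fintype.card ι := by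
  have hp0 : (0 : ℝ) < p := by exact_mod_cast (Fact.out : p.Prime).pos
  have hp1 : (0 : ℝ) < (p : ℝ) - 1 := by
    have : (1 : ℝ) < p := by exact_mod_cast (Fact.out : p.Prime).one_lt
    linarith
  unfold la
  rw [← Finset.sum_div, Finset.sum_sub_distrib, sum_dcone, Finset.sum_const, nsmul_eq_mul,
    Finset.card_univ, Fintype.card_fun, ZMod.card]
  push_cast
  field_simp
  ring

theorem sum_la_sq (hn : 1 ≤ n) (hs : Separates f p) : ∑ c : ι → ZMod p, la f p c ^ 2 ≤
    (4 * (p : ℝ) ^ (n - 1) + (1 / p - bcone f p / (p * ((p : ℝ) - 1))) ^ 2) *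
      (p : ℝ) ^ Fintype.card ι := by
  obtain ⟨k, rfl⟩ : ∃ k, n = k + 1 := ⟨n - 1, by omega⟩
  have hp2 : (2 : ℝ) ≤ p := by exact_mod_cast (Fact.out : p.Prime).two_le
  have hp0 : (0 : ℝ) < p := by linarith
  have hp1 : (0 : ℝ) < (p : ℝ) - 1 := by linarith
  set M := (p : ℝ) ^ Fintype.card ι with hM
  have hM0 : 0 < M := by positivity
  set B : ℝ := ((bcone f p : ℕ) : ℝ) with hB
  have hB0 : 0 ≤ B := by rw [hB]; positivity
  set μ : ℝ := ((p : ℝ) ^ (k + 1 + 1) - 1 - B) / p with hμ
  have h1 : ∀ c : ι → ZMod p, la f p c ^ 2 =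
      (dcone f p c ^ 2 - 2 * ((p : ℝ) ^ (k + 1) - 1) * dcone f p c +
        ((p : ℝ) ^ (k + 1) - 1) ^ 2) / ((p : ℝ) - 1) ^ 2 := by
    intro c; unfold la; rw [div_pow]; ring
  rw [Finset.sum_congr rfl fun c _ => h1 c, ← Finset.sum_div, Finset.sum_add_distrib,
    Finset.sum_sub_distrib, ← Finset.mul_sum, sum_dcone, Finset.sum_const, nsmul_eq_mul,
    Finset.card_univ, Fintype.card_fun, ZMod.card, Nat.cast_pow, ← hM, ← hB, ← hμ,
    div_le_iff₀ (by positivity)]
  have h2 := sum_dcone_sq (f := f) (p := p) hs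
  rw [← hM, ← hB, ← hμ] at h2
  have h3 : μ - ((p : ℝ) ^ (k + 1) - 1) = (1 / p - B / (p * ((p : ℝ) - 1))) * ((p : ℝ) - 1) := by
    rw [hμ]; field_simp; ring
  have h7 : (p : ℝ) ^ (k + 1 + 1) ≤ 4 * (p : ℝ) ^ (k + 1 - 1) * ((p : ℝ) - 1) ^ 2 := by
    rw [Nat.add_sub_cancel, pow_succ, pow_succ]
    have h8 : (p : ℝ) * p ≤ 4 * ((p : ℝ) - 1) ^ 2 := by nlinarith
    have h9 : (0 : ℝ) < (p : ℝ) ^ k := by positivity
    nlinarith
  calc _ ≤ ((((p : ℝ) ^ (k + 1 + 1) - 1 - B) + μ ^ 2) * M -
          2 * ((p : ℝ) ^ (k + 1) - 1) * (μ * M)) + M * ((p : ℝ) ^ (k + 1) - 1) ^ 2 := by linarith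
    _ = (((p : ℝ) ^ (k + 1 + 1) - 1 - B) + (μ - ((p : ℝ) ^ (k + 1) - 1)) ^ 2) * M := by ring
    _ ≤ ((p : ℝ) ^ (k + 1 + 1) + (μ - ((p : ℝ) ^ (k + 1) - 1)) ^ 2) * M := by
      apply mul_le_mul_of_nonneg_right _ hM0.le
      linarith
    _ ≤ (4 * (p : ℝ) ^ (k + 1 - 1) * ((p : ℝ) - 1) ^ 2 +
          (μ - ((p : ℝ) ^ (k + 1) - 1)) ^ 2) * M := by gcongr
    _ = _ := by rw [h3]; ring

end

end Pool.Agent.Y722.LS
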