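import Pool.Agent.Y722.LS.Main

/-!
# Hypersurfaces containing `e` disjoint linear spaces of half the dimension

The spaces are `Λ_t : x_i = t x_{m+1+i}` for all `i`, `t = 0, …, e - 1`, in `ℙ^{2m+1}`, and the forms are
the products of one of the linear forms `x_i - t x_{m+1+i}` for every `t < e` and a monomial.
-/

set_option autoImplicit false

namespace Pool.Agent.Y722.LS

open Finset Pool.Agent.Y722.HS

section
variable {m : ℕ}

/-- The index of `x_i`, `i ≤ m`. -/
def lo (i : Fin (m + 1)) : Fin (2 * m + 1 + 1) := ⟨i, by omega⟩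

/-- The index of `x_{m+1+i}`, `i ≤ m`. -/
def hi (i : Fin (m + 1)) : Fin (2 * m + 1 + 1) := ⟨m + 1 + i, by omega⟩

theorem lo_or_hi (j : Fin (2 * m + 1 + 1)) : (∃ i, j = lo i) ∨ ∃ i, j = hi i := by
  by_cases h : (j : ℕ) < m + 1
  · exact Or.inl ⟨⟨j, h⟩, rfl⟩
  · refine Or.inr ⟨⟨j - (m + 1), by omega⟩, ?_⟩
    apply Fin.ext
    simp only [hi]
    omega

theorem lo_ne_hi (i j : Fin (m + 1)) : lo i ≠ hi j := by
  intro h
  have := congrArg Fin.val h
  simp only [lo, hi] at this
  omega

theorem lo_inj : Function.Injective (lo (m := m)) := by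
  intro a b h
  have := congrArg Fin.val h
  simp only [lo] at this
  exact Fin.ext this

theorem hi_inj : Function.Injective (hi (m := m)) := by
  intro a b h
  have := congrArg Fin.val h
  simp only [hi] at this
  apply Fin.ext
  omega

/-- The linear form `x_i - t x_{m+1+i}`. -/
noncomputable def uu (t : ℕ) (i : Fin (m + 1)) : MvPolynomial (Fin (2 * m + 1 + 1)) ℤ :=
  MvPolynomial.X (lo i) - MvPolynomial.C (t : ℤ) * MvPolynomial.X (hi i)

theorem aeval_uu {R : Type*} [CommRing R] (x : Fin (2 * m + 1 + 1) → R) (t : ℕ) (i : Fin (m + 1)) :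
    MvPolynomial.aeval x (uu t i) = x (lo i) - (t : R) * x (hi i) := by
  simp [uu]

/-- The monomial. -/
noncomputable def monp {n k : ℕ} (μ : Mon n k) : MvPolynomial (Fin (n + 1)) ℤ :=
  ∏ i, MvPolynomial.X i ^ (μ.1 i : ℕ)

theorem aeval_monp {n k : ℕ} {R : Type*} [CommRing R] (x : Fin (n + 1) → R) (μ : Mon n k) :
    MvPolynomial.aeval x (monp μ) = mev x μ := by
  simp [monp, mev, map_prod]

theorem monp_hom {n k : ℕ} (μ : Mon n k) : (monp μ).IsHomogeneous k := by
  have h := MvPolynomial.IsHomogeneous.prod Finset.univ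
    (fun i => (MvPolynomial.X i : MvPolynomial (Fin (n + 1)) ℤ) ^ (μ.1 i : ℕ))
    (fun i => (μ.1 i : ℕ)) (fun i _ => by
      have := (MvPolynomial.isHomogeneous_X ℤ i).pow (μ.1 i : ℕ)
      rwa [one_mul] at this)
  rw [μ.2] at h
  exact h

/-- The forms: products of one linear form for every space, and a monomial of degree `k`. -/
noncomputable def pf (m e k : ℕ) (j : (Fin e → Fin (m + 1)) × Mon (2 * m + 1) k) :
    MvPolynomial (Fin (2 * m + 1 + 1)) ℤ :=
  (∏ t : Fin e, uu t (j.1 t)) * monp j.2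

theorem pf_hom (m e k : ℕ) (j : (Fin e → Fin (m + 1)) × Mon (2 * m + 1) k) :
    (pf m e k j).IsHomogeneous (e + k) := by
  refine MvPolynomial.IsHomogeneous.mul ?_ (monp_hom j.2)
  have h := MvPolynomial.IsHomogeneous.prod Finset.univ
    (fun t : Fin e => uu (t : ℕ) (j.1 t)) (fun _ => 1) (fun t _ => by
      refine MvPolynomial.IsHomogeneous.sub (MvPolynomial.isHomogeneous_X ℤ _) ?_
      have := (MvPolynomial.isHomogeneous_C (Fin (2 * m + 1 + 1)) ((t : ℕ) : ℤ)).mul
        (MvPolynomial.isHomogeneous_X ℤ (hi (j.1 t)))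
      rwa [zero_add] at this)
  simpa using h

/-- The point is on one of the spaces. -/
def OnPlane (e : ℕ) {R : Type*} [CommRing R] (x : Fin (2 * m + 1 + 1) → R) : Prop :=
  ∃ t < e, ∀ i : Fin (m + 1), x (lo i) = (t : R) * x (hi i)

theorem mem_base {e k : ℕ} (p : ℕ) [Fact p.Prime] (x : Fin (2 * m + 1 + 1) → ZMod p) (hx : x ≠ 0) :
    (∀ j, MvPolynomial.aeval x (pf m e k j) = 0) ↔ OnPlane e x := by
  constructor
  · intro h
    by_contra hcon
    unfold OnPlane at hcon
    push Not at hcon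
    have h1 : ∀ t : Fin e, ∃ i : Fin (m + 1), x (lo i) ≠ ((t : ℕ) : ZMod p) * x (hi i) :=
      fun t => hcon t t.2
    choose κ hκ using h1
    obtain ⟨i, hi0⟩ : ∃ i, x i ≠ 0 := Function.ne_iff.mp hx
    have hs : ∑ j : Fin (2 * m + 1 + 1), (if j = i then k else 0) = k := by simp
    have h2 := h (κ, mkMon _ hs)
    rw [pf, map_mul, map_prod, aeval_monp] at h2
    rcases mul_eq_zero.mp h2 with h3 | h3
    · obtain ⟨t, _, ht⟩ := Finset.prod_eq_zero_iff.mp h3
      rw [aeval_uu] at ht
      exact hκ t (sub_eq_zero.mp ht)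
    · unfold mev at h3
      obtain ⟨j, _, hj⟩ := Finset.prod_eq_zero_iff.mp h3
      rw [mkMon_apply] at hj
      split_ifs at hj with hji
      · subst hji
        exact pow_ne_zero _ hi0 hj
      · simp at hj
  · rintro ⟨t, ht, h⟩ j
    rw [pf, map_mul, map_prod]
    have : ∏ s : Fin e, MvPolynomial.aeval x (uu (s : ℕ) (j.1 s)) = 0 := by
      apply Finset.prod_eq_zero (Finset.mem_univ (⟨t, ht⟩ : Fin e))
      rw [aeval_uu, h, sub_self]
    rw [this, zero_mul]

/-- The vectors on one space. -/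
theorem card_plane (p : ℕ) [Fact p.Prime] (t : ℕ) :
    Nat.card {x : Fin (2 * m + 1 + 1) → ZMod p //
      ∀ i : Fin (m + 1), x (lo i) = (t : ZMod p) * x (hi i)} = p ^ (m + 1) := by
  have e : {x : Fin (2 * m + 1 + 1) → ZMod p //
      ∀ i : Fin (m + 1), x (lo i) = (t : ZMod p) * x (hi i)} ≃ (Fin (m + 1) → ZMod p) :=
    { toFun := fun x i => x.1 (hi i)
      invFun := fun z => ⟨fun j => if h : (j : ℕ) < m + 1 then (t : ZMod p) * z ⟨j, h⟩ else
          z ⟨j - (m + 1), by omega⟩, fun i => by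
            have h1 : ((lo i : Fin (2 * m + 1 + 1)) : ℕ) < m + 1 := i.2
            have h2 : ¬ ((hi i : Fin (2 * m + 1 + 1)) : ℕ) < m + 1 := by simp only [hi]; omega
            dsimp only
            rw [dif_pos h1, dif_neg h2]
            have h3 : (⟨((hi i : Fin (2 * m + 1 + 1)) : ℕ) - (m + 1), by omega⟩ : Fin (m + 1)) = i := by
              apply Fin.ext
              simp only [hi]
              omega
            rw [h3]
            rfl⟩
      left_inv := fun x => by
        apply Subtype.ext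
        funext j
        rcases lo_or_hi j with ⟨i, rfl⟩ | ⟨i, rfl⟩
        · have h1 : ((lo i : Fin (2 * m + 1 + 1)) : ℕ) < m + 1 := i.2
          simp only [dif_pos h1]
          rw [x.2 i]
          rfl
        · have h2 : ¬ ((hi i : Fin (2 * m + 1 + 1)) : ℕ) < m + 1 := by simp only [hi]; omega
          simp only [dif_neg h2]
          have h3 : (⟨((hi i : Fin (2 * m + 1 + 1)) : ℕ) - (m + 1), by omega⟩ : Fin (m + 1)) = i := by
            apply Fin.ext
            simp only [hi]
            omega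
          rw [h3]
      right_inv := fun z => by
        funext i
        have h2 : ¬ ((hi i : Fin (2 * m + 1 + 1)) : ℕ) < m + 1 := by simp only [hi]; omega
        simp only [dif_neg h2]
        congr 1
        apply Fin.ext
        simp only [hi]
        omega }
  rw [Nat.card_congr e, Nat.card_eq_fintype_card, Fintype.card_fun, ZMod.card, Fintype.card_fin]

/-- The number of the nonzero vectors on the spaces, if `p` is large. -/
theorem bcone_pf {e k : ℕ} (p : ℕ) [hpF : Fact p.Prime] (hp : e ≤ p) :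
    bcone (n := 2 * m + 1) (pf m e k) p = e * (p ^ (m + 1) - 1) := by
  classical
  set A : ℕ → Finset (Fin (2 * m + 1 + 1) → ZMod p) := fun t =>
    Finset.univ.filter (fun x => x ≠ 0 ∧ ∀ i : Fin (m + 1), x (lo i) = (t : ZMod p) * x (hi i))
    with hA
  have hcard : ∀ t, (A t).card = p ^ (m + 1) - 1 := by
    intro t
    have h1 := card_plane (m := m) p t
    rw [Nat.card_eq_fintype_card, Fintype.card_subtype] at h1
    rw [← h1]
    have h2 : A t = (Finset.univ.filter (fun x : Fin (2 * m + 1 + 1) → ZMod p =>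
        ∀ i : Fin (m + 1), x (lo i) = (t : ZMod p) * x (hi i))).erase 0 := by
      ext x
      simp only [hA, Finset.mem_filter, Finset.mem_univ, true_and, Finset.mem_erase]
    rw [h2, Finset.card_erase_of_mem]
    simp
  have hdisj : ∀ s ∈ range e, ∀ t ∈ range e, s ≠ t → Disjoint (A s) (A t) := by
    intro s hs t ht hst
    rw [Finset.disjoint_left]
    intro x hx1 hx2
    simp only [hA, Finset.mem_filter, Finset.mem_univ, true_and] at hx1 hx2
    have hst' : (s : ZMod p) ≠ t := by
      intro h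
      rw [ZMod.natCast_eq_natCast_iff'] at h
      rw [Nat.mod_eq_of_lt (lt_of_lt_of_le (Finset.mem_range.mp hs) hp),
        Nat.mod_eq_of_lt (lt_of_lt_of_le (Finset.mem_range.mp ht) hp)] at h
      exact hst h
    have h1 : ∀ i, x (hi i) = 0 := by
      intro i
      have h2 : ((s : ZMod p) - t) * x (hi i) = 0 := by
        rw [sub_mul, ← hx1.2 i, ← hx2.2 i, sub_self]
      rcases mul_eq_zero.mp h2 with h3 | h3
      · exact absurd (sub_eq_zero.mp h3) hst'
      · exact h3
    apply hx1.1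
    funext j
    rcases lo_or_hi j with ⟨i, rfl⟩ | ⟨i, rfl⟩
    · rw [hx1.2 i, h1 i, mul_zero]; rfl
    · exact h1 i
  have h1 : bcone (n := 2 * m + 1) (pf m e k) p = ((range e).biUnion A).card := by
    unfold bcone
    rw [Nat.card_eq_fintype_card, Fintype.card_subtype]
    congr 1
    ext x
    simp only [hA, Finset.mem_filter, Finset.mem_univ, true_and, Finset.mem_biUnion,
      Finset.mem_range]
    constructor
    · rintro ⟨hx, h⟩
      obtain ⟨t, ht, h2⟩ := (mem_base p x hx).mp h
      exact ⟨t, ht, hx, h2⟩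
    · rintro ⟨t, ht, hx, h2⟩
      exact ⟨hx, (mem_base p x hx).mpr ⟨t, ht, h2⟩⟩
  rw [h1, Finset.card_biUnion hdisj, Finset.sum_congr rfl fun t _ => hcard t, Finset.sum_const,
    Finset.card_range, smul_eq_mul]

theorem zc_pf {e k : ℕ} (p : ℕ) (hpp : p.Prime) (hp : e ≤ p) :
    |zc (m := m) (pf m e k) p - e * (p : ℝ) ^ m| ≤ 2 * e * (p : ℝ) ^ ((m : ℝ) - 1 / 2) := by
  have := Fact.mk hpp
  have hp2 : (2 : ℝ) ≤ p := by exact_mod_cast hpp.two_le
  have hp0 : (0 : ℝ) < p := by linarith
  have hp1 : (0 : ℝ) < (p : ℝ) - 1 := by linarith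
  have h1 : zc (m := m) (pf m e k) p = e * ((p : ℝ) ^ (m + 1) - 1) / ((p : ℝ) - 1) := by
    have h2 := bcone_pf (m := m) (e := e) (k := k) p hp
    have h3 : (1 : ℕ) ≤ p ^ (m + 1) := Nat.one_le_pow _ _ hpp.pos
    unfold zc
    have h4 : ((bcone (n := 2 * m + 1) (pf m e k) p : ℕ) : ℝ) = e * ((p : ℝ) ^ (m + 1) - 1) := by
      rw [h2]
      push_cast [Nat.cast_sub h3]
      ring
    rw [h4]
  have h5 : zc (m := m) (pf m e k) p - e * (p : ℝ) ^ m = e * (((p : ℝ) ^ m - 1) / ((p : ℝ) - 1)) := by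
    rw [h1]; field_simp; ring
  have h6 : (1 : ℝ) ≤ (p : ℝ) ^ m := one_le_pow₀ (by linarith)
  rw [h5, abs_of_nonneg (by
    have : 0 ≤ (p : ℝ) ^ m - 1 := by linarith
    positivity)]
  have h7 : ((p : ℝ) ^ m - 1) / ((p : ℝ) - 1) ≤ 2 * (p : ℝ) ^ ((m : ℝ) - 1) := by
    rw [div_le_iff₀ hp1, Real.rpow_sub_one hp0.ne', Real.rpow_natCast]
    have h8 : (p : ℝ) ^ m = (p : ℝ) ^ m / p * p := by field_simp
    have h9 : 0 ≤ (p : ℝ) ^ m / p := by positivity
    nlinarith
  have h10 : (p : ℝ) ^ ((m : ℝ) - 1) ≤ (p : ℝ) ^ ((m : ℝ) - 1 / 2) :=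
    Real.rpow_le_rpow_of_exponent_le (by linarith) (by linarith)
  calc _ ≤ (e : ℝ) * (2 * (p : ℝ) ^ ((m : ℝ) - 1 / 2)) := by
        gcongr
        linarith
    _ = _ := by ring

/-- The monomial `x_s^{k} x_i`. -/
theorem mono_sum (k : ℕ) (s i : Fin (2 * m + 1 + 1)) :
    ∑ j : Fin (2 * m + 1 + 1), ((if j = s then k else 0) + if j = i then 1 else 0) = k + 1 := by
  rw [Finset.sum_add_distrib]
  simp

theorem mev_mono {R : Type*} [CommRing R] (k : ℕ) (s i : Fin (2 * m + 1 + 1))
    (x : Fin (2 * m + 1 + 1) → R) :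
    mev x (mkMon _ (mono_sum k s i)) = x s ^ k * x i := by
  unfold mev
  have h1 : ∀ j, x j ^ (((mkMon _ (mono_sum k s i)).1 j : Fin (k + 1 + 1)) : ℕ) =
      x j ^ (if j = s then k else 0) * x j ^ (if j = i then 1 else 0) := by
    intro j
    rw [mkMon_apply, pow_add]
  rw [Finset.prod_congr rfl fun j _ => h1 j, Finset.prod_mul_distrib]
  congr 1
  · rw [Finset.prod_eq_single s]
    · rw [if_pos rfl]
    · intro j _ hj
      rw [if_neg hj, pow_zero]
    · intro h; exact absurd (Finset.mem_univ _) h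
  · rw [Finset.prod_eq_single i]
    · rw [if_pos rfl, pow_one]
    · intro j _ hj
      rw [if_neg hj, pow_zero]
    · intro h; exact absurd (Finset.mem_univ _) h

theorem lval_single {n : ℕ} {ι : Type} [Fintype ι] [DecidableEq ι]
    (f : ι → MvPolynomial (Fin (n + 1)) ℤ) {R : Type*} [CommRing R] (a : ι) (v : R)
    (x : Fin (n + 1) → R) :
    lval f (Pi.single a v) x = v * MvPolynomial.aeval x (f a) := by
  unfold lval
  rw [Finset.sum_eq_single a]
  · rw [Pi.single_eq_same]
  · intro b _ hb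
    rw [Pi.single_eq_of_ne hb, zero_mul]
  · intro h; exact absurd (Finset.mem_univ _) h

/-- The system separates the points. -/
theorem separates_pf (e k : ℕ) (p : ℕ) [Fact p.Prime] :
    Separates (n := 2 * m + 1) (pf m e (k + 1)) p := by
  classical
  rintro x y ⟨i, j, hij⟩ ⟨a, ha⟩
  have hx : x ≠ 0 := by
    rintro rfl
    simp at hij
  obtain ⟨s, hs⟩ : ∃ s, x s ≠ 0 := Function.ne_iff.mp hx
  have hprod : ∏ t : Fin e, MvPolynomial.aeval x (uu (t : ℕ) (a.1 t)) ≠ 0 := by
    intro h0
    apply ha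
    rw [pf, map_mul, map_prod, h0, zero_mul]
  refine ⟨Pi.single (a.1, mkMon _ (mono_sum k s i)) (y j) +
    Pi.single (a.1, mkMon _ (mono_sum k s j)) (-(y i)), ?_, ?_⟩
  · rw [eval_lform, lval_add, lval_single, lval_single, pf, pf, map_mul, map_mul, aeval_monp,
      aeval_monp, mev_mono, mev_mono, map_prod]
    have h1 : y j * ((∏ t : Fin e, MvPolynomial.aeval x (uu (t : ℕ) (a.1 t))) * (x s ^ k * x i)) +
        -y i * ((∏ t : Fin e, MvPolynomial.aeval x (uu (t : ℕ) (a.1 t))) * (x s ^ k * x j)) =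
        (∏ t : Fin e, MvPolynomial.aeval x (uu (t : ℕ) (a.1 t))) * x s ^ k *
          (x i * y j - x j * y i) := by ring
    rw [h1]
    exact mul_ne_zero (mul_ne_zero hprod (pow_ne_zero _ hs)) (sub_ne_zero.mpr hij)
  · rw [eval_lform, lval_add, lval_single, lval_single, pf, pf, map_mul, map_mul, aeval_monp,
      aeval_monp, mev_mono, mev_mono]
    ring

/-- The derivative of a product. -/
theorem eval_pderiv_prod {σ R : Type*} [CommRing R] (x : σ → R) (j : σ) (S : Finset ℕ)
    (u : ℕ → MvPolynomial σ R) :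
    MvPolynomial.eval x (MvPolynomial.pderiv j (∏ s ∈ S, u s)) =
      ∑ s ∈ S, MvPolynomial.eval x (MvPolynomial.pderiv j (u s)) *
        ∏ r ∈ S.erase s, MvPolynomial.eval x (u r) := by
  classical
  induction S using Finset.induction_on with
  | empty => simp
  | insert a S ha ih =>
    rw [Finset.prod_insert ha, Derivation.leibniz, map_add, smul_eq_mul, smul_eq_mul, map_mul,
      map_mul, ih, Finset.sum_insert ha, Finset.erase_insert ha, map_prod, Finset.mul_sum]
    rw [add_comm]
    congr 1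
    · ring
    · refine Finset.sum_congr rfl fun s hs => ?_
      have hsa : s ≠ a := fun h => ha (h ▸ hs)
      rw [Finset.erase_insert_of_ne hsa.symm, Finset.prod_insert (fun h =>
        ha (Finset.mem_of_mem_erase h))]
      ring

end

end Pool.Agent.Y722.LS
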