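import Pool.Agent.Y722.LS.Abs

/-!
# The average of the square of the majorant
-/

set_option autoImplicit false

namespace Pool.Agent.Y722.LS

open Finset Pool.Agent.Y722.HS

section
variable {ι : Type} [Fintype ι] [DecidableEq ι] {A : ℝ} {N B : ∀ p : ℕ, (ι → ZMod p) → ℝ}

/-- The sum at the exponent `u`. -/
noncomputable def Z1 (N : ∀ p : ℕ, (ι → ZMod p) → ℝ) (y : ℕ) (u : ℝ) (c : ι → ℤ) : ℝ :=
  WW N y (fun p => (p : ℝ) ^ (-u)) c

/-- The sum with logarithms. -/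
noncomputable def Y1 (N : ∀ p : ℕ, (ι → ZMod p) → ℝ) (y : ℕ) (u : ℝ) (c : ι → ℤ) : ℝ :=
  WW N y (fun p => Real.log p * (p : ℝ) ^ (-u)) c

theorem continuous_Y1 (y : ℕ) (c : ι → ℤ) : Continuous fun u => Y1 N y u c := by
  unfold Y1 WW
  refine continuous_finsetSum _ fun p hp => ?_
  have hp0 : (0 : ℝ) < p := by exact_mod_cast (mem_PR.mp hp).2.pos
  exact (continuous_const.mul (Real.continuous_const_rpow hp0.ne' |>.comp continuous_neg)).mul
    continuous_const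

theorem hasDerivAt_Z1 (y : ℕ) (c : ι → ℤ) (u : ℝ) :
    HasDerivAt (fun u => Z1 N y u c) (-Y1 N y u c) u := by
  unfold Z1 Y1 WW
  rw [← Finset.sum_neg_distrib]
  refine HasDerivAt.fun_sum fun p hp => ?_
  have hp0 : (0 : ℝ) < p := by exact_mod_cast (mem_PR.mp hp).2.pos
  have h1 : HasDerivAt (fun u : ℝ => (p : ℝ) ^ (-u)) (Real.log p * (-1) * (p : ℝ) ^ (-u)) u :=
    (hasDerivAt_neg u).const_rpow hp0
  have h2 := h1.mul_const (N p (red p c))
  refine h2.congr_deriv ?_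
  ring

theorem continuous_Z1 (y : ℕ) (c : ι → ℤ) : Continuous fun u => Z1 N y u c :=
  continuous_iff_continuousAt.mpr fun u => (hasDerivAt_Z1 y c u).continuousAt

theorem Z1_sq_le (y : ℕ) (c : ι → ℤ) (ε : ℝ) (h0 : 0 ≤ ε) (h1 : ε ≤ 1) :
    Z1 N y ε c ^ 2 ≤ Z1 N y 0 c ^ 2 + ∫ u in (0 : ℝ)..1, (Z1 N y u c ^ 2 + Y1 N y u c ^ 2) := by
  have hY := continuous_Y1 (N := N) y c
  have hZ := continuous_Z1 (N := N) y c
  have hd : ∀ u : ℝ, HasDerivAt (fun u => Z1 N y u c ^ 2) (2 * Z1 N y u c * (-Y1 N y u c)) u := by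
    intro u
    have := (hasDerivAt_Z1 (N := N) y c u).pow 2
    refine this.congr_deriv ?_
    simp
  have hc2 : Continuous fun u => 2 * Z1 N y u c * (-Y1 N y u c) := (continuous_const.mul hZ).mul hY.neg
  have hc3 : Continuous fun u => Z1 N y u c ^ 2 + Y1 N y u c ^ 2 := (hZ.pow 2).add (hY.pow 2)
  have h2 : ∫ u in (0 : ℝ)..ε, 2 * Z1 N y u c * (-Y1 N y u c) = Z1 N y ε c ^ 2 - Z1 N y 0 c ^ 2 :=
    intervalIntegral.integral_eq_sub_of_hasDerivAt (fun u _ => hd u)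
      (hc2.intervalIntegrable _ _)
  have h4 : ∫ u in (0 : ℝ)..ε, 2 * Z1 N y u c * (-Y1 N y u c) ≤
      ∫ u in (0 : ℝ)..ε, (Z1 N y u c ^ 2 + Y1 N y u c ^ 2) := by
    apply intervalIntegral.integral_mono_on h0 (hc2.intervalIntegrable _ _)
      (hc3.intervalIntegrable _ _)
    intro u _
    nlinarith [sq_nonneg (Z1 N y u c + Y1 N y u c)]
  have h5 : ∫ u in (0 : ℝ)..ε, (Z1 N y u c ^ 2 + Y1 N y u c ^ 2) ≤
      ∫ u in (0 : ℝ)..1, (Z1 N y u c ^ 2 + Y1 N y u c ^ 2) := by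
    apply intervalIntegral.integral_mono_interval le_rfl h0 h1
    · exact Filter.Eventually.of_forall fun u => by positivity
    · exact hc3.intervalIntegrable _ _
  linarith

/-- The majorant of `Z1 ^ 2`. -/
noncomputable def G1 (N : ∀ p : ℕ, (ι → ZMod p) → ℝ) (y : ℕ) (c : ι → ℤ) : ℝ :=
  Z1 N y 0 c ^ 2 + ∫ u in (0 : ℝ)..1, (Z1 N y u c ^ 2 + Y1 N y u c ^ 2)

theorem Fam.EB_G1 (h : Fam A N B) (H y : ℕ) (hy : y ^ 4 ≤ H) :
    EB H (fun c : ι → ℤ => G1 N y c) ≤ 3 * K1 ι A := by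
  unfold G1
  rw [EB_add]
  have h1 : EB H (fun c : ι → ℤ => Z1 N y 0 c ^ 2) ≤ K1 ι A := h.EB_WW_sq H y hy _ (wt0 y 0 le_rfl)
  have hcont : ∀ c : ι → ℤ, Continuous fun u => Z1 N y u c ^ 2 + Y1 N y u c ^ 2 := fun c =>
    ((continuous_Z1 y c).pow 2).add ((continuous_Y1 y c).pow 2)
  have h3 : EB H (fun c : ι → ℤ => ∫ u in (0 : ℝ)..1, (Z1 N y u c ^ 2 + Y1 N y u c ^ 2)) =
      ∫ u in (0 : ℝ)..1, EB H (fun c : ι → ℤ => Z1 N y u c ^ 2 + Y1 N y u c ^ 2) := by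
    unfold EB
    rw [intervalIntegral.integral_div, intervalIntegral.integral_finsetSum]
    intro c _
    exact (hcont c).intervalIntegrable _ _
  have hcont2 : Continuous fun u => EB H (fun c : ι → ℤ => Z1 N y u c ^ 2 + Y1 N y u c ^ 2) := by
    unfold EB
    exact (continuous_finsetSum _ fun c _ => hcont c).div_const _
  have h4 : ∫ u in (0 : ℝ)..1, EB H (fun c : ι → ℤ => Z1 N y u c ^ 2 + Y1 N y u c ^ 2) ≤
      ∫ u in (0 : ℝ)..1, 2 * K1 ι A := by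
    apply intervalIntegral.integral_mono_on zero_le_one (hcont2.intervalIntegrable _ _) (by simp)
    intro u hu
    rw [EB_add]
    have e1 : EB H (fun c : ι → ℤ => Z1 N y u c ^ 2) ≤ K1 ι A := h.EB_WW_sq H y hy _ (wt0 y u hu.1)
    have e2 : EB H (fun c : ι → ℤ => Y1 N y u c ^ 2) ≤ K1 ι A := h.EB_WW_sq H y hy _ (wt1 y u hu.1)
    linarith
  rw [h3]
  have h5 : ∫ u in (0 : ℝ)..1, 2 * K1 ι A = 2 * K1 ι A := by simp
  rw [h5] at h4
  linarith

end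

end Pool.Agent.Y722.LS
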